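import Pool.Agent.Lib.MP_af3183_lc.VT.Defs

/-!
# VT-Alg: the two matrix algebras
`mk T f` is the matrix with entries `f (T u v)`. Every colour of `T'` is a colour of `T` (`cover`: for `(u', v')` take `base` of `Coh T T'`: `f`, `u = f⁻¹ u'`, `T u u = T' u' u'`, then `bij` of
`(u, u)`, `(u', u')`: `g` with `T u w = T' u' (g w)`, `w = g⁻¹ v'`), and conversely.
* `mul_mk`: `h c = (mk T f * mk T g) p.1 p.2` for a chosen `p` with `T p.1 p.2 = c` (`0` if there is none). For `T`: `Coh T T` (`bij`) and `Fintype.sum_equiv`; for `T'`: the colour of `(u', v')`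
  is a colour of `T`; `Coh T T'`.
* `poly_mk`: induction on the polynomial (`Polynomial.induction_on'` or `induction_on`): `algebraMap c = mk T (fun t => if ∃ u, T u u = t then c else 0)` for both (`diag`, `base`, `cover`); sums: `h = h₁ + h₂`;
  multiplication with `X`: `mul_mk`.
* `poly_zero`: by `poly_mk`, `h = 0` at all colours of `T`, so at all colours of `T'`.
-/

namespace Pool.Agent.Lib.MP_af3183_lc.VT

open Pool.Agent.Lib.MP_af3183_lc Polynomial

/-- The matrix `f (T u v)`. -/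
def mk {V K : Type} (T : V → V → K) (f : K → ℝ) : Matrix V V ℝ := Matrix.of fun u v => f (T u v)

section

variable {V W K : Type} [Fintype V] [Fintype W] {T : V → V → K} {T' : W → W → K}

theorem cover (h : Coh T T') (u' v' : W) : ∃ u v, T u v = T' u' v' := by
  obtain ⟨f, hf⟩ := h.base
  have h1 : T (f.symm u') (f.symm u') = T' u' u' := by rw [hf, Equiv.apply_symm_apply]
  obtain ⟨g, hg⟩ := h.bij _ _ _ _ h1
  refine ⟨f.symm u', g.symm v', ?_⟩
  rw [(hg (g.symm v')).1, Equiv.apply_symm_apply]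

private theorem Alg_entry (h : Coh T T') (f g : K → ℝ) (u v : V) (u' v' : W) (e : T u v = T' u' v') :
    (mk T f * mk T g) u v = (mk T' f * mk T' g) u' v' := by
  obtain ⟨F, hF⟩ := h.bij u v u' v' e
  rw [Matrix.mul_apply, Matrix.mul_apply]
  refine Fintype.sum_equiv F _ _ fun w => ?_
  change f (T u w) * g (T w v) = f (T' u' (F w)) * g (T' (F w) v')
  rw [(hF w).1, (hF w).2]

theorem mul_mk (h1 : Coh T T) (h : Coh T T') (f g : K → ℝ) :
    ∃ r : K → ℝ, mk T f * mk T g = mk T r ∧ mk T' f * mk T' g = mk T' r := by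
  classical
  refine ⟨fun c => if hc : ∃ p : V × V, T p.1 p.2 = c then (mk T f * mk T g) hc.choose.1 hc.choose.2 else 0, ?_, ?_⟩
  · ext u v
    change _ = dite _ _ _
    have hc : ∃ p : V × V, T p.1 p.2 = T u v := ⟨(u, v), rfl⟩
    rw [dif_pos hc]
    exact (Alg_entry h1 f g _ _ _ _ hc.choose_spec).symm
  · ext u' v'
    change _ = dite _ _ _
    have hc : ∃ p : V × V, T p.1 p.2 = T' u' v' := by
      obtain ⟨u, v, e⟩ := cover h u' v'
      exact ⟨(u, v), e⟩
    rw [dif_pos hc]
    exact (Alg_entry h f g _ _ _ _ hc.choose_spec).symm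

variable [DecidableEq V] [DecidableEq W]

theorem poly_mk (h1 : Coh T T) (h : Coh T T') (P : ℝ[X]) (f : K → ℝ) :
    ∃ r : K → ℝ, aeval (mk T f) P = mk T r ∧ aeval (mk T' f) P = mk T' r := by
  classical
  induction P using Polynomial.induction_on with
  | C a =>
    refine ⟨fun t => if ∃ u, T u u = t then a else 0, ?_, ?_⟩
    · rw [aeval_C]
      ext u v
      rw [Matrix.algebraMap_matrix_apply]
      change _ = ite (∃ w, T w w = T u v) a 0
      by_cases huv : u = v
      · rw [if_pos huv, if_pos ⟨u, by rw [huv]⟩]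
        rfl
      · rw [if_neg huv, if_neg]
        rintro ⟨w, hw⟩
        exact huv ((h1.diag w w u v hw).1 rfl)
    · rw [aeval_C]
      ext u' v'
      rw [Matrix.algebraMap_matrix_apply]
      change _ = ite (∃ w, T w w = T' u' v') a 0
      by_cases huv : u' = v'
      · obtain ⟨F, hF⟩ := h.base
        rw [if_pos huv, if_pos ⟨F.symm u', by rw [hF, Equiv.apply_symm_apply, huv]⟩]
        rfl
      · rw [if_neg huv, if_neg]
        rintro ⟨w, hw⟩
        exact huv ((h.diag w w u' v' hw).1 rfl)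
  | add p q hp hq =>
    obtain ⟨r, e1, e2⟩ := hp
    obtain ⟨s, e3, e4⟩ := hq
    refine ⟨fun c => r c + s c, ?_, ?_⟩
    · rw [map_add, e1, e3]
      rfl
    · rw [map_add, e2, e4]
      rfl
  | monomial n a hn =>
    obtain ⟨r, e1, e2⟩ := hn
    obtain ⟨s, e3, e4⟩ := mul_mk h1 h r f
    refine ⟨s, ?_, ?_⟩
    · rw [pow_succ, ← mul_assoc, map_mul, aeval_X, e1, e3]
    · rw [pow_succ, ← mul_assoc, map_mul, aeval_X, e2, e4]

theorem poly_zero (h1 : Coh T T) (h : Coh T T') (P : ℝ[X]) (f : K → ℝ) (h0 : aeval (mk T f) P = 0) :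
    aeval (mk T' f) P = 0 := by
  obtain ⟨r, e1, e2⟩ := poly_mk h1 h P f
  rw [e1] at h0
  rw [e2]
  ext u' v'
  obtain ⟨u, v, e⟩ := cover h u' v'
  change r (T' u' v') = 0
  rw [← e]
  exact congrFun (congrFun h0 u) v

end

end Pool.Agent.Lib.MP_af3183_lc.VT
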