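import Pool.Agent.Lib.MP_af3183_lc.VT.Defs

/-!
# VT-AvA: averages over colours
`N c = ∑ p, if T p = c then 1 else 0` is `≥ 1` if `c` is a colour (else both sums vanish).
* `avg_sum`: group the pairs by colour. Shortest: replace `K` by the finite set of colours: `∑ p, g (T p) * avg (T p) = ∑ p, g (T p) * (∑ q, if T q = T p then a q.1 * a q.2 else 0) / N (T p)`, exchange the two sums:
  for fixed `q` the sum over `p` with `T p = T q` of `g (T q) / N (T q)` is `g (T q)`.
* `avg_swap`: the swap `p ↦ (p.2, p.1)` maps the pairs of colour `T u v` to those of colour `T v u` (`Coh.swap` in both directions), `Fintype.sum_equiv (Equiv.prodComm V V)`.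
* `avg_zero`, `avg_nonneg`: clear. `avg_le_one`: numerator `≤` denominator.
-/

namespace Pool.Agent.Lib.MP_af3183_lc.VT

open Pool.Agent.Lib.MP_af3183_lc

variable {V K : Type} [Fintype V] {T : V → V → K} {a : V → ℝ}

theorem avg_sum (T : V → V → K) (a : V → ℝ) (g : K → ℝ) :
    ∑ u, ∑ v, g (T u v) * avg T a (T u v) = ∑ u, ∑ v, g (T u v) * (a u * a v) := by
  classical
  have e1 : ∑ u, ∑ v, g (T u v) * avg T a (T u v) = ∑ p : V × V, g (T p.1 p.2) * avg T a (T p.1 p.2) :=
    (Fintype.sum_prod_type (fun p : V × V => g (T p.1 p.2) * avg T a (T p.1 p.2))).symm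
  have e2 : ∑ u, ∑ v, g (T u v) * (a u * a v) = ∑ p : V × V, g (T p.1 p.2) * (a p.1 * a p.2) :=
    (Fintype.sum_prod_type (fun p : V × V => g (T p.1 p.2) * (a p.1 * a p.2))).symm
  rw [e1, e2]
  set N : K → ℝ := fun c => ∑ p : V × V, if T p.1 p.2 = c then (1 : ℝ) else 0 with hN
  have hav : ∀ c, avg T a c = (∑ p : V × V, if T p.1 p.2 = c then a p.1 * a p.2 else 0) / N c := by
    intro c
    unfold avg
    rw [hN]
  have hpos : ∀ q : V × V, 0 < N (T q.1 q.2) := by
    intro q
    rw [hN]
    have h1 : (1 : ℝ) ≤ ∑ p : V × V, if T p.1 p.2 = T q.1 q.2 then (1 : ℝ) else 0 := by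
      have h2 := Finset.single_le_sum (f := fun p : V × V => if T p.1 p.2 = T q.1 q.2 then (1 : ℝ) else 0)
        (s := Finset.univ) (fun p _ => by split_ifs <;> norm_num) (Finset.mem_univ q)
      simpa using h2
    exact lt_of_lt_of_le one_pos h1
  calc ∑ p : V × V, g (T p.1 p.2) * avg T a (T p.1 p.2)
      = ∑ p : V × V, ∑ q : V × V, (if T q.1 q.2 = T p.1 p.2 then g (T p.1 p.2) / N (T p.1 p.2) * (a q.1 * a q.2) else 0) := by
        refine Finset.sum_congr rfl (fun p _ => ?_)
        rw [hav, div_eq_mul_inv, Finset.sum_mul, Finset.mul_sum]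
        refine Finset.sum_congr rfl (fun q _ => ?_)
        split_ifs
        · rw [div_eq_mul_inv]; ring
        · ring
    _ = ∑ q : V × V, ∑ p : V × V, (if T q.1 q.2 = T p.1 p.2 then g (T p.1 p.2) / N (T p.1 p.2) * (a q.1 * a q.2) else 0) :=
        Finset.sum_comm
    _ = ∑ q : V × V, g (T q.1 q.2) * (a q.1 * a q.2) := by
        refine Finset.sum_congr rfl (fun q _ => ?_)
        have h3 : ∀ p : V × V, (if T q.1 q.2 = T p.1 p.2 then g (T p.1 p.2) / N (T p.1 p.2) * (a q.1 * a q.2) else 0)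
            = g (T q.1 q.2) / N (T q.1 q.2) * (a q.1 * a q.2) * (if T p.1 p.2 = T q.1 q.2 then (1 : ℝ) else 0) := by
          intro p
          by_cases h : T q.1 q.2 = T p.1 p.2
          · rw [if_pos h, if_pos h.symm, h, mul_one]
          · rw [if_neg h, if_neg (fun h' => h h'.symm), mul_zero]
        rw [Finset.sum_congr rfl (fun p _ => h3 p), ← Finset.mul_sum]
        have h4 : (∑ p : V × V, if T p.1 p.2 = T q.1 q.2 then (1 : ℝ) else 0) = N (T q.1 q.2) := rfl
        rw [h4]
        have h5 := (hpos q).ne'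
        field_simp

theorem avg_swap (h : Coh T T) (a : V → ℝ) (u v : V) : avg T a (T u v) = avg T a (T v u) := by
  classical
  have key : ∀ p : V × V, (T p.1 p.2 = T u v) ↔ (T p.2 p.1 = T v u) := fun p =>
    ⟨fun e => h.swap _ _ _ _ e, fun e => h.swap _ _ _ _ e⟩
  unfold avg
  refine congrArg₂ (· / ·) ?_ ?_
  · refine Fintype.sum_equiv (Equiv.prodComm V V) _ _ (fun p => ?_)
    simp only [Equiv.prodComm_apply, Prod.fst_swap, Prod.snd_swap]
    by_cases e : T p.1 p.2 = T u v
    · rw [if_pos e, if_pos ((key p).1 e), mul_comm]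
    · rw [if_neg e, if_neg (fun e' => e ((key p).2 e'))]
  · refine Fintype.sum_equiv (Equiv.prodComm V V) _ _ (fun p => ?_)
    simp only [Equiv.prodComm_apply, Prod.fst_swap, Prod.snd_swap]
    by_cases e : T p.1 p.2 = T u v
    · rw [if_pos e, if_pos ((key p).1 e)]
    · rw [if_neg e, if_neg (fun e' => e ((key p).2 e'))]

theorem avg_zero {c : K} (h : ∀ u v, T u v = c → a u * a v = 0) : avg T a c = 0 := by
  unfold avg
  rw [Finset.sum_eq_zero, zero_div]
  intro p _
  split_ifs with e
  · exact h _ _ e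
  · rfl

theorem avg_nonneg (h : ∀ u, 0 ≤ a u) (c : K) : 0 ≤ avg T a c := by
  unfold avg
  refine div_nonneg (Finset.sum_nonneg (fun p _ => ?_)) (Finset.sum_nonneg (fun p _ => ?_))
  · split_ifs
    · exact mul_nonneg (h _) (h _)
    · exact le_refl _
  · split_ifs
    · exact zero_le_one
    · exact le_refl _

theorem avg_le_one (h : ∀ u, 0 ≤ a u) (h1 : ∀ u, a u ≤ 1) (c : K) : avg T a c ≤ 1 := by
  unfold avg
  refine div_le_one_of_le₀ (Finset.sum_le_sum (fun p _ => ?_)) (Finset.sum_nonneg (fun p _ => ?_))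
  · split_ifs
    · exact mul_le_one₀ (h1 _) (h _) (h1 _)
    · exact le_refl _
  · split_ifs
    · exact zero_le_one
    · exact le_refl _

end Pool.Agent.Lib.MP_af3183_lc.VT
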