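import Mathlib

/-!
# VT-SpA: spectral polynomials
`X` real symmetric; for a function `s : ℝ → ℝ` there is a polynomial `Q` with `Q(λ) = s(λ)` for the finitely many eigenvalues `λ` (`Lagrange.interpolate`), and
`aeval X Q = U * diagonal (s ∘ eigenvalues) * Uᴴ` with `U = hX.eigenvectorUnitary` (spectral theorem; induction on `Q`, or `cfc_polynomial` / `Matrix.IsHermitian.cfc`).
* `exists_sqrt_poly`: `s = Real.sqrt`, eigenvalues `≥ 0`, `sqrt * sqrt = id`.
* `exists_neg_poly`: `s λ = if λ < 0 then 1 else 0`; `X * (Q(X) * Q(X)) = U * diagonal (λ s(λ)^2) * Uᴴ` has trace `∑ λ_i [λ_i < 0]`; if it is `≥ 0` there is no negative eigenvalue, so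
  `X.PosSemidef` (`Matrix.IsHermitian.posSemidef_iff_eigenvalues_nonneg` or similar).
-/

namespace Pool.Agent.Lib.MP_af3183_lc.VT

open Polynomial Matrix

private theorem exists_conj {n : Type} [Fintype n] [DecidableEq n] {X : Matrix n n ℝ}
    (hX : X.IsHermitian) : ∃ c : Matrix n n ℝ →ₐ[ℝ] Matrix n n ℝ,
      (∀ M, (c M).trace = M.trace) ∧ X = c (diagonal hX.eigenvalues) := by
  refine ⟨(Unitary.conjStarAlgAut ℝ _ hX.eigenvectorUnitary).toAlgEquiv.toAlgHom, ?_, ?_⟩
  · intro M
    change (Unitary.conjStarAlgAut ℝ _ hX.eigenvectorUnitary M).trace = M.trace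
    rw [Unitary.conjStarAlgAut_apply, Matrix.trace_mul_comm, ← mul_assoc, Unitary.coe_star_mul_self,
      one_mul]
  · exact hX.spectral_theorem

private theorem aeval_diagonal {n : Type} [Fintype n] [DecidableEq n] (d : n → ℝ) (Q : ℝ[X]) :
    aeval (diagonal d) Q = diagonal fun i => Q.eval (d i) := by
  have h1 : (diagonal d : Matrix n n ℝ) = Matrix.diagonalAlgHom ℝ d := rfl
  rw [h1, Polynomial.aeval_algHom_apply]
  change diagonal (aeval d Q) = _
  congr 1
  funext i
  have h2 := Polynomial.aeval_algHom_apply (Pi.evalAlgHom ℝ (fun _ : n => ℝ) i) d Q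
  change aeval (d i) Q = (aeval d Q) i at h2
  rw [← h2, Polynomial.coe_aeval_eq_eval]

private theorem exists_interp {n : Type} [Fintype n] (d : n → ℝ) (s : ℝ → ℝ) :
    ∃ Q : ℝ[X], ∀ i, Q.eval (d i) = s (d i) := by
  classical
  refine ⟨Lagrange.interpolate (Finset.univ.image d) id s, fun i => ?_⟩
  exact Lagrange.eval_interpolate_at_node s (Function.injective_id.injOn)
    (Finset.mem_image_of_mem d (Finset.mem_univ i))

theorem exists_sqrt_poly {n : Type} [Fintype n] [DecidableEq n] {X : Matrix n n ℝ} (hX : X.PosSemidef) :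
    ∃ Q : ℝ[X], aeval X Q * aeval X Q = X := by
  obtain ⟨c, _, hc⟩ := exists_conj hX.1
  obtain ⟨Q, hQ⟩ := exists_interp hX.1.eigenvalues Real.sqrt
  refine ⟨Q, ?_⟩
  have h1 : aeval X Q = c (diagonal fun i => Q.eval (hX.1.eigenvalues i)) := by
    conv_lhs => rw [hc]
    rw [Polynomial.aeval_algHom_apply, aeval_diagonal]
  rw [h1, ← map_mul, diagonal_mul_diagonal]
  conv_rhs => rw [hc]
  congr 2
  funext i
  rw [hQ, Real.mul_self_sqrt (hX.eigenvalues_nonneg i)]

theorem exists_neg_poly {n : Type} [Fintype n] [DecidableEq n] {X : Matrix n n ℝ} (hX : X.IsHermitian) :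
    ∃ Q : ℝ[X], 0 ≤ (X * (aeval X Q * aeval X Q)).trace → X.PosSemidef := by
  obtain ⟨c, hct, hc⟩ := exists_conj hX
  obtain ⟨Q, hQ⟩ := exists_interp hX.eigenvalues (fun x => if x < 0 then 1 else 0)
  refine ⟨Q, fun h => ?_⟩
  have h1 : aeval X Q = c (diagonal fun i => Q.eval (hX.eigenvalues i)) := by
    conv_lhs => rw [hc]
    rw [Polynomial.aeval_algHom_apply, aeval_diagonal]
  have h2 : X * (aeval X Q * aeval X Q) = c (diagonal fun i => hX.eigenvalues i *
      (Q.eval (hX.eigenvalues i) * Q.eval (hX.eigenvalues i))) := by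
    rw [h1, ← map_mul, diagonal_mul_diagonal]
    refine (congrArg (fun M => M * c (diagonal fun i => Q.eval (hX.eigenvalues i) *
      Q.eval (hX.eigenvalues i))) hc).trans ?_
    rw [← map_mul, diagonal_mul_diagonal]
  rw [h2, hct, trace_diagonal] at h
  rw [hX.posSemidef_iff_eigenvalues_nonneg]
  intro i
  by_contra hi
  have hi' : hX.eigenvalues i < 0 := not_le.1 hi
  have h3 : ∀ j ∈ Finset.univ, hX.eigenvalues j *
      (Q.eval (hX.eigenvalues j) * Q.eval (hX.eigenvalues j)) ≤ 0 := by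
    intro j _
    rw [hQ]
    by_cases hj : hX.eigenvalues j < 0
    · simp only [hj, if_true]
      linarith
    · simp [hj]
  have h4 := Finset.sum_lt_sum (g := fun _ => (0 : ℝ)) h3 ⟨i, Finset.mem_univ i, by
    rw [hQ]
    simp only [hi', if_true]
    linarith⟩
  rw [Finset.sum_const_zero] at h4
  linarith

end Pool.Agent.Lib.MP_af3183_lc.VT
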