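import Pool.Agent.Lib.MP_af3183_lc.VT.Alg
import Pool.Agent.Lib.MP_af3183_lc.VT.SpA
import Pool.Agent.Lib.MP_af3183_lc.VT.AvA

/-!
# VT-AvB: the matrix of averages is positive semidefinite, on both sides
`X = mk T (avg T a)` is symmetric (`avg_swap`). Let `Q` be from `exists_neg_poly`, `Y = aeval X Q`, symmetric (a polynomial in a symmetric matrix); `Y * Y = mk T r` (`poly_mk` with `Q * Q`, `T' = T`).
`trace (X * (Y * Y)) = ∑ u, ∑ v, avg T a (T u v) * (Y * Y) v u = ∑ u, ∑ v, r (T u v) * avg T a (T u v)` (`Y * Y` symmetric) `= ∑ u, ∑ v, r (T u v) * (a u * a v)` (`avg_sum`) `= a ⬝ᵥ (Y * Y) *ᵥ a = |Y a|² ≥ 0`.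
So `X` is positive semidefinite. `exists_sqrt_poly`: `Q(X)² = X`; the polynomial `Q * Q - X` kills `X`, so it kills `X' = mk T' (avg T a)` (`poly_zero`): `Y' = aeval X' Q` has `Y' * Y' = X'`, and it is symmetric,
as `X'` is: `avg T a (T' u' v') = avg T a (T' v' u')`: `cover` gives `T u v = T' u' v'`, then `T v u = T' v' u'` (`Coh.swap`), `avg_swap`.
-/

namespace Pool.Agent.Lib.MP_af3183_lc.VT

open Pool.Agent.Lib.MP_af3183_lc Polynomial

private theorem aeval_symm {n : Type} [Fintype n] [DecidableEq n] {X : Matrix n n ℝ} (hX : X.transpose = X)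
    (Q : ℝ[X]) : (aeval X Q).transpose = aeval X Q := by
  induction Q using Polynomial.induction_on' with
  | add p q hp hq => rw [map_add, Matrix.transpose_add, hp, hq]
  | monomial k c =>
    rw [aeval_monomial, Matrix.transpose_mul, Matrix.transpose_pow, hX, Matrix.algebraMap_eq_diagonal,
      Matrix.diagonal_transpose, ← Matrix.algebraMap_eq_diagonal, Algebra.commutes]

private theorem form_nonneg {n : Type} [Fintype n] {Y : Matrix n n ℝ} (hY : Y.transpose = Y) (a : n → ℝ) :
    0 ≤ ∑ u, ∑ v, (Y * Y) u v * (a u * a v) := by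
  have h1 : ∑ u, ∑ v, (Y * Y) u v * (a u * a v) = ∑ w, (∑ u, Y w u * a u) ^ 2 := by
    have h2 : ∀ u v, (Y * Y) u v * (a u * a v) = ∑ w, (Y w u * a u) * (Y w v * a v) := by
      intro u v
      rw [Matrix.mul_apply, Finset.sum_mul]
      refine Finset.sum_congr rfl fun w _ => ?_
      have h3 : Y u w = Y w u := by
        conv_lhs => rw [← hY]
        rfl
      rw [h3]
      ring
    simp only [h2]
    rw [Finset.sum_congr rfl fun u _ => Finset.sum_comm, Finset.sum_comm]
    refine Finset.sum_congr rfl fun w _ => ?_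
    rw [sq, Finset.sum_mul_sum]
  rw [h1]
  exact Finset.sum_nonneg fun w _ => sq_nonneg _

theorem exists_gram {V W K : Type} [Fintype V] [Fintype W] {T : V → V → K} {T' : W → W → K}
    (h1 : Coh T T) (h : Coh T T') (a : V → ℝ) :
    ∃ Y : Matrix W W ℝ, Y.transpose = Y ∧ Y * Y = mk T' (avg T a) := by
  classical
  have hXt : (mk T (avg T a)).transpose = mk T (avg T a) := by
    ext u v
    exact avg_swap h1 a v u
  have hXh : (mk T (avg T a)).IsHermitian := by
    rw [Matrix.IsHermitian, Matrix.conjTranspose_eq_transpose_of_trivial]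
    exact hXt
  obtain ⟨Q, hQ⟩ := exists_neg_poly hXh
  obtain ⟨r, hr, _⟩ := poly_mk h1 h1 (Q * Q) (avg T a)
  rw [map_mul] at hr
  have hYt := aeval_symm hXt Q
  have hpos : (mk T (avg T a)).PosSemidef := by
    refine hQ ?_
    have h3 : ((mk T (avg T a)) * (aeval (mk T (avg T a)) Q * aeval (mk T (avg T a)) Q)).trace =
        ∑ u, ∑ v, (aeval (mk T (avg T a)) Q * aeval (mk T (avg T a)) Q) u v * (a u * a v) := by
      have h4 : (aeval (mk T (avg T a)) Q * aeval (mk T (avg T a)) Q).transpose =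
          aeval (mk T (avg T a)) Q * aeval (mk T (avg T a)) Q := by
        rw [Matrix.transpose_mul, hYt]
      have h5 : ∑ u, ∑ v, r (T u v) * (a u * a v) =
          ∑ u, ∑ v, (aeval (mk T (avg T a)) Q * aeval (mk T (avg T a)) Q) u v * (a u * a v) := by
        rw [hr]
        rfl
      rw [← h5, ← avg_sum T a r]
      refine Finset.sum_congr rfl fun u _ => ?_
      rw [Matrix.diag_apply, Matrix.mul_apply]
      refine Finset.sum_congr rfl fun v _ => ?_
      have h6 : (aeval (mk T (avg T a)) Q * aeval (mk T (avg T a)) Q) v u = r (T u v) := by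
        rw [← h4, Matrix.transpose_apply, hr]
        rfl
      rw [h6, mul_comm]
      rfl
    rw [h3]
    exact form_nonneg hYt a
  obtain ⟨P, hP⟩ := exists_sqrt_poly hpos
  have h7 : aeval (mk T' (avg T a)) (P * P - X) = 0 := by
    refine poly_zero h1 h (P * P - X) (avg T a) ?_
    rw [map_sub, map_mul, aeval_X, hP, sub_self]
  rw [map_sub, map_mul, aeval_X, sub_eq_zero] at h7
  refine ⟨aeval (mk T' (avg T a)) P, aeval_symm ?_ P, h7⟩
  ext u' v'
  obtain ⟨u, v, huv⟩ := cover h u' v'
  have h8 := h.swap u v u' v' huv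
  change avg T a (T' v' u') = avg T a (T' u' v')
  rw [← h8, ← huv]
  exact (avg_swap h1 a u v).symm

end Pool.Agent.Lib.MP_af3183_lc.VT
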