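import Pool.Agent.Lib.MP_af3183_lc.VT.AvA

/-!
# VT-AvC: row sums and diagonal sums of the matrix of averages
`a` is the indicator function of a set (`a u * a u = a u`).
* `row_V`: `∑ w, avg (T x w) = (∑ a) * avg (T x x)`. Let `R x` be the left side; `R` and `x ↦ avg (T x x)` depend only on the colour `T x x` (`Coh.bij` for `(x, x)`, `(y, y)`; `Fintype.sum_equiv`). The colour `T y w` determines
  `T y y` (`bij` for `T y w = T y' w'`, take the vertex `y` and use `diag`). So with `g c = 1` if `c` is a colour `T y w` with `T y y = T x x`, `g c = 0` else: `avg_sum` for this `g`: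
  `∑_{y ~ x} R y = ∑_{y ~ x} ∑ w, a y * a w = (∑ a) * ∑_{y ~ x} a y`, and `avg_sum` for `g' c = 1` if `c = T x x`: `∑_{y ~ x} avg (T y y) = ∑_{y ~ x} a y * a y = ∑_{y ~ x} a y`. All terms of the two left sides are equal:
  `m * R x = (∑ a) * m * avg (T x x)`, `m ≥ 1` the number of `y` with `T y y = T x x`.
* `row_W`: `cover`-type argument: `base` of `h` gives `x` with `T x x = T' u' u'`, `bij` for `(x, x)`, `(u', u')` gives `f` with `T x w = T' u' (f w)`: both sides are those of `row_V` for `x`.
* `diag_W`: `base` gives `∑ u', avg (T' u' u') = ∑ x, avg (T x x)`; `avg_sum` with `g` = indicator of the colours `T x x` (`diag`): `= ∑ x, a x * a x = ∑ x, a x`.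
-/

namespace Pool.Agent.Lib.MP_af3183_lc.VT

open Pool.Agent.Lib.MP_af3183_lc

variable {V W K : Type} [Fintype V] [Fintype W] {T : V → V → K} {T' : W → W → K} {a : V → ℝ}

theorem row_V (h1 : Coh T T) (ha : ∀ u, a u * a u = a u) (x : V) :
    ∑ w, avg T a (T x w) = (∑ u, a u) * avg T a (T x x) := by
  classical
  -- the indicator of the vertices with the colour of `x`
  set χ : V → ℝ := fun u => if T u u = T x x then 1 else 0 with hχ
  set R : V → ℝ := fun y => ∑ w, avg T a (T y w) with hR
  have hRx : ∀ y, T y y = T x x → R y = R x := by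
    intro y hy
    obtain ⟨f, hf⟩ := h1.bij x x y y hy.symm
    simp only [hR]
    symm
    refine Fintype.sum_equiv f _ _ fun w => ?_
    rw [(hf w).1]
  have hm : 0 < ∑ u, χ u := by
    refine Finset.sum_pos' (fun u _ => ?_) ⟨x, Finset.mem_univ _, ?_⟩
    · simp only [hχ]
      split_ifs
      · exact zero_le_one
      · exact le_rfl
    · simp only [hχ, if_true]
      exact one_pos
  -- first application
  have e1 := avg_sum T a (fun c => if ∃ y w, T y w = c ∧ T y y = T x x then (1 : ℝ) else 0)
  have hg : ∀ u v, (if ∃ y w, T y w = T u v ∧ T y y = T x x then (1 : ℝ) else 0) = χ u := by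
    intro u v
    have hiff : (∃ y w, T y w = T u v ∧ T y y = T x x) ↔ T u u = T x x := by
      constructor
      · rintro ⟨y, w, hyw, hy⟩
        obtain ⟨f, hf⟩ := h1.bij y w u v hyw
        have h2 := (hf y).1
        have h3 := (h1.diag y y u (f y) h2).1 rfl
        rw [← h3] at h2
        rw [← h2, hy]
      · intro h
        exact ⟨u, v, rfl, h⟩
    simp only [hχ, hiff]
  have e2 : ∑ u, χ u * R u = (∑ u, a u) * ∑ u, χ u * a u := by
    have l : ∑ u, ∑ v, (if ∃ y w, T y w = T u v ∧ T y y = T x x then (1 : ℝ) else 0) *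
        avg T a (T u v) = ∑ u, χ u * R u := by
      refine Finset.sum_congr rfl fun u _ => ?_
      simp only [hR]
      rw [Finset.mul_sum]
      exact Finset.sum_congr rfl fun v _ => by rw [hg]
    have r : ∑ u, ∑ v, (if ∃ y w, T y w = T u v ∧ T y y = T x x then (1 : ℝ) else 0) *
        (a u * a v) = (∑ u, a u) * ∑ u, χ u * a u := by
      rw [Finset.mul_sum]
      refine Finset.sum_congr rfl fun u _ => ?_
      rw [Finset.sum_mul]
      refine Finset.sum_congr rfl fun v _ => ?_
      rw [hg]
      ring
    rw [← l, ← r]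
    exact e1
  have e3 : ∑ u, χ u * R u = (∑ u, χ u) * R x := by
    rw [Finset.sum_mul]
    refine Finset.sum_congr rfl fun u _ => ?_
    by_cases hu : T u u = T x x
    · rw [hRx u hu]
    · simp only [hχ, if_neg hu, zero_mul]
  -- second application
  have e4 := avg_sum T a (fun c => if c = T x x then (1 : ℝ) else 0)
  have hg' : ∀ u v, (if T u v = T x x then (1 : ℝ) else 0) = if u = v then χ u else 0 := by
    intro u v
    by_cases h : T u v = T x x
    · have h3 := (h1.diag x x u v h.symm).1 rfl
      subst h3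
      simp only [hχ, if_true]
    · by_cases huv : u = v
      · subst huv
        simp only [hχ, if_true]
      · rw [if_neg h, if_neg huv]
  have e5 : (∑ u, χ u) * avg T a (T x x) = ∑ u, χ u * a u := by
    have l : ∑ u, ∑ v, (if T u v = T x x then (1 : ℝ) else 0) * avg T a (T u v) =
        (∑ u, χ u) * avg T a (T x x) := by
      rw [Finset.sum_mul]
      refine Finset.sum_congr rfl fun u _ => ?_
      rw [Finset.sum_eq_single u]
      · rw [hg', if_pos rfl]
        by_cases hu : T u u = T x x
        · rw [hu]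
        · simp only [hχ, if_neg hu, zero_mul]
      · intro v _ hv
        rw [hg', if_neg (Ne.symm hv), zero_mul]
      · intro h
        exact absurd (Finset.mem_univ _) h
    have r : ∑ u, ∑ v, (if T u v = T x x then (1 : ℝ) else 0) * (a u * a v) = ∑ u, χ u * a u := by
      refine Finset.sum_congr rfl fun u _ => ?_
      rw [Finset.sum_eq_single u]
      · rw [hg', if_pos rfl, ha]
      · intro v _ hv
        rw [hg', if_neg (Ne.symm hv), zero_mul]
      · intro h
        exact absurd (Finset.mem_univ _) h
    rw [← l, ← r]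
    exact e4
  have e6 : (∑ u, χ u) * R x = (∑ u, χ u) * ((∑ u, a u) * avg T a (T x x)) := by
    rw [← e3, e2, ← e5]
    ring
  exact mul_left_cancel₀ hm.ne' e6

theorem row_W (h1 : Coh T T) (h : Coh T T') (ha : ∀ u, a u * a u = a u) (u' : W) :
    ∑ w, avg T a (T' u' w) = (∑ u, a u) * avg T a (T' u' u') := by
  obtain ⟨f, hf⟩ := h.base
  have hx : T (f.symm u') (f.symm u') = T' u' u' := by
    have := hf (f.symm u')
    rwa [f.apply_symm_apply] at this
  obtain ⟨f2, hf2⟩ := h.bij _ _ _ _ hx
  rw [← hx, ← row_V h1 ha (f.symm u')]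
  symm
  refine Fintype.sum_equiv f2 _ _ fun w => ?_
  rw [(hf2 w).1]

theorem diag_W (h1 : Coh T T) (h : Coh T T') (ha : ∀ u, a u * a u = a u) :
    ∑ u', avg T a (T' u' u') = ∑ u, a u := by
  classical
  obtain ⟨f, hf⟩ := h.base
  have e0 : ∑ u', avg T a (T' u' u') = ∑ u, avg T a (T u u) := by
    symm
    refine Fintype.sum_equiv f _ _ fun u => ?_
    rw [hf u]
  have e1 := avg_sum T a (fun c => if ∃ y, T y y = c then (1 : ℝ) else 0)
  have hg : ∀ u v, (if ∃ y, T y y = T u v then (1 : ℝ) else 0) = if u = v then 1 else 0 := by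
    intro u v
    have hiff : (∃ y, T y y = T u v) ↔ u = v := by
      constructor
      · rintro ⟨y, hy⟩
        exact (h1.diag y y u v hy).1 rfl
      · rintro rfl
        exact ⟨u, rfl⟩
    simp only [hiff]
  have l : ∑ u, ∑ v, (if ∃ y, T y y = T u v then (1 : ℝ) else 0) * avg T a (T u v) =
      ∑ u, avg T a (T u u) := by
    refine Finset.sum_congr rfl fun u _ => ?_
    rw [Finset.sum_eq_single u]
    · rw [hg, if_pos rfl, one_mul]
    · intro v _ hv
      rw [hg, if_neg (Ne.symm hv), zero_mul]
    · intro h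
      exact absurd (Finset.mem_univ _) h
  have r : ∑ u, ∑ v, (if ∃ y, T y y = T u v then (1 : ℝ) else 0) * (a u * a v) = ∑ u, a u := by
    refine Finset.sum_congr rfl fun u _ => ?_
    rw [Finset.sum_eq_single u]
    · rw [hg, if_pos rfl, one_mul, ha]
    · intro v _ hv
      rw [hg, if_neg (Ne.symm hv), zero_mul]
    · intro h
      exact absurd (Finset.mem_univ _) h
  rw [e0, ← l, ← r]
  exact e1

end Pool.Agent.Lib.MP_af3183_lc.VT
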