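import Pool.Agent.Lib.MP_af3183_lc.VT.LogC

/-!
# VT-CohA: the colours of pairs form equivalent coherent configurations
`col G σ u v = col H τ u' v'` means `Ag` of `ρ = update (update σ x0 u) x1 v` and `ρ' = ...` (`tp_eq`).
* `bij`: `ag_bij` for `ρ`, `ρ'`, variable `x2`: `f` with `Ag (update ρ x2 w) (update ρ' x2 (f w))`. `col G σ u w`: `update (update σ x0 u) x1 w` is obtained from `update ρ x2 w` by
  `ag_perm` with `Equiv.swap x1 x2` and then `ag_copy x2 x3` (value of `x2` becomes the value of `x3`, which is `σ x3 = σ x2`); the same on the other side. `col G σ w v`: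
  `Equiv.swap x0 x2`, then `ag_copy x2 x3`.
* `swap`: `Equiv.swap x0 x1`. `diag`: `Ag.eq x0 x1`. `base`: `ag_bij` for `σ`, `τ`, variable `x0`, then `ag_copy x1 x0`.
(`funext`, cases on the index: `x0`, `x1`, `x2`, other; the four working variables are different.)
-/

namespace Pool.Agent.Lib.MP_af3183_lc.VT

open Pool.Agent.Lib.MP_af3183_lc

private theorem x01 {k : ℕ} : (x0 : Fin (k + 4)) ≠ x1 := by intro h; simpa using congrArg Fin.val h
private theorem x02 {k : ℕ} : (x0 : Fin (k + 4)) ≠ x2 := by intro h; simpa using congrArg Fin.val h
private theorem x03 {k : ℕ} : (x0 : Fin (k + 4)) ≠ x3 := by intro h; simpa using congrArg Fin.val h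
private theorem x12 {k : ℕ} : (x1 : Fin (k + 4)) ≠ x2 := by intro h; simpa using congrArg Fin.val h
private theorem x13 {k : ℕ} : (x1 : Fin (k + 4)) ≠ x3 := by intro h; simpa using congrArg Fin.val h
private theorem x23 {k : ℕ} : (x2 : Fin (k + 4)) ≠ x3 := by intro h; simpa using congrArg Fin.val h

private theorem updA {k : ℕ} {V : Type} (σ : Fin (k + 4) → V) (hσ : σ x2 = σ x3) (u v w : V) :
    Function.update ((Function.update (Function.update (Function.update σ x0 u) x1 v) x2 w) ∘ Equiv.swap x1 x2) x2
      (((Function.update (Function.update (Function.update σ x0 u) x1 v) x2 w) ∘ Equiv.swap x1 x2) x3) =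
      Function.update (Function.update σ x0 u) x1 w := by
  have h01 := x01 (k := k)
  have h02 := x02 (k := k)
  have h03 := x03 (k := k)
  have h12 := x12 (k := k)
  have h13 := x13 (k := k)
  have h23 := x23 (k := k)
  funext i
  rcases eq_or_ne i x0 with rfl | h0
  · rw [Function.update_of_ne h02, Function.comp_apply, Equiv.swap_apply_of_ne_of_ne h01 h02,
      Function.update_of_ne h02, Function.update_of_ne h01, Function.update_of_ne h01]
  rcases eq_or_ne i x1 with rfl | h1
  · rw [Function.update_of_ne h12, Function.comp_apply, Equiv.swap_apply_left, Function.update_self,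
      Function.update_self]
  rcases eq_or_ne i x2 with rfl | h2
  · rw [Function.update_self, Function.comp_apply, Equiv.swap_apply_of_ne_of_ne h13.symm h23.symm,
      Function.update_of_ne h23.symm, Function.update_of_ne h13.symm, Function.update_of_ne h03.symm,
      Function.update_of_ne h12.symm, Function.update_of_ne h02.symm, hσ]
  · rw [Function.update_of_ne h2, Function.comp_apply, Equiv.swap_apply_of_ne_of_ne h1 h2,
      Function.update_of_ne h2, Function.update_of_ne h1, Function.update_of_ne h1]

private theorem updB {k : ℕ} {V : Type} (σ : Fin (k + 4) → V) (hσ : σ x2 = σ x3) (u v w : V) :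
    Function.update ((Function.update (Function.update (Function.update σ x0 u) x1 v) x2 w) ∘ Equiv.swap x0 x2) x2
      (((Function.update (Function.update (Function.update σ x0 u) x1 v) x2 w) ∘ Equiv.swap x0 x2) x3) =
      Function.update (Function.update σ x0 w) x1 v := by
  have h01 := x01 (k := k)
  have h02 := x02 (k := k)
  have h03 := x03 (k := k)
  have h12 := x12 (k := k)
  have h13 := x13 (k := k)
  have h23 := x23 (k := k)
  funext i
  rcases eq_or_ne i x0 with rfl | h0
  · rw [Function.update_of_ne h02, Function.comp_apply, Equiv.swap_apply_left, Function.update_self,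
      Function.update_of_ne h01, Function.update_self]
  rcases eq_or_ne i x1 with rfl | h1
  · rw [Function.update_of_ne h12, Function.comp_apply, Equiv.swap_apply_of_ne_of_ne h01.symm h12,
      Function.update_of_ne h12, Function.update_self, Function.update_self]
  rcases eq_or_ne i x2 with rfl | h2
  · rw [Function.update_self, Function.comp_apply, Equiv.swap_apply_of_ne_of_ne h03.symm h23.symm,
      Function.update_of_ne h23.symm, Function.update_of_ne h13.symm, Function.update_of_ne h03.symm,
      Function.update_of_ne h12.symm, Function.update_of_ne h02.symm, hσ]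
  · rw [Function.update_of_ne h2, Function.comp_apply, Equiv.swap_apply_of_ne_of_ne h0 h2,
      Function.update_of_ne h2, Function.update_of_ne h1, Function.update_of_ne h1, Function.update_of_ne h0,
      Function.update_of_ne h0]

private theorem updC {k : ℕ} {V : Type} (σ : Fin (k + 4) → V) (u v : V) :
    (Function.update (Function.update σ x0 u) x1 v) ∘ Equiv.swap x0 x1 =
      Function.update (Function.update σ x0 v) x1 u := by
  have h01 := x01 (k := k)
  funext i
  rcases eq_or_ne i x0 with rfl | h0
  · rw [Function.comp_apply, Equiv.swap_apply_left, Function.update_self, Function.update_of_ne h01,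
      Function.update_self]
  rcases eq_or_ne i x1 with rfl | h1
  · rw [Function.comp_apply, Equiv.swap_apply_right, Function.update_of_ne h01, Function.update_self,
      Function.update_self]
  · rw [Function.comp_apply, Equiv.swap_apply_of_ne_of_ne h0 h1,
      Function.update_of_ne h1, Function.update_of_ne h0, Function.update_of_ne h1, Function.update_of_ne h0]

theorem coh_col {k : ℕ} {V W : Type} [Finite V] [Finite W] {G : SimpleGraph V} {H : SimpleGraph W}
    {σ : Fin (k + 4) → V} {τ : Fin (k + 4) → W} (h : Ag G H σ τ) (hσ : σ x2 = σ x3) (hτ : τ x2 = τ x3) :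
    Coh (col G σ) (col H τ) := by
  have h01 := x01 (k := k)
  refine ⟨?_, ?_, ?_, ?_⟩
  · intro u v u' v' hc
    obtain ⟨f, hf⟩ := ag_bij (tp_eq.mp hc) x2
    refine ⟨f, fun w => ⟨tp_eq.mpr ?_, tp_eq.mpr ?_⟩⟩
    · have h1 := ag_copy (ag_perm (hf w) (Equiv.swap x1 x2)) x2 x3
      rw [updA σ hσ, updA τ hτ] at h1
      exact h1
    · have h1 := ag_copy (ag_perm (hf w) (Equiv.swap x0 x2)) x2 x3
      rw [updB σ hσ, updB τ hτ] at h1
      exact h1
  · intro u v u' v' hc
    have h1 := ag_perm (tp_eq.mp hc) (Equiv.swap x0 x1)
    rw [updC, updC] at h1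
    exact tp_eq.mpr h1
  · intro u v u' v' hc
    have h1 := (tp_eq.mp hc).eq x0 x1
    rwa [Function.update_of_ne h01, Function.update_self, Function.update_self,
      Function.update_of_ne h01, Function.update_self, Function.update_self] at h1
  · obtain ⟨f, hf⟩ := ag_bij h x0
    refine ⟨f, fun v => tp_eq.mpr ?_⟩
    have h1 := ag_copy (hf v) x1 x0
    rwa [Function.update_self, Function.update_self] at h1

theorem col_adj {k : ℕ} {V W : Type} {G : SimpleGraph V} {H : SimpleGraph W}
    {σ : Fin (k + 4) → V} {τ : Fin (k + 4) → W} {u v : V} {u' v' : W} (h : col G σ u v = col H τ u' v') :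
    G.Adj u v ↔ H.Adj u' v' := by
  have h01 := x01 (k := k)
  have h1 := (tp_eq.mp h).adj x0 x1
  rwa [Function.update_of_ne h01, Function.update_self, Function.update_self,
    Function.update_of_ne h01, Function.update_self, Function.update_self] at h1

end Pool.Agent.Lib.MP_af3183_lc.VT
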