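import Pool.Agent.Lib.MP_af3183_lc.VT.LogC

/-!
# VT-CohB: sets defined from the centres
All indices in `A` are `≥ 4`, so the centres are not changed by updates of `x0, ..., x3`.
`key`: if `Ag G H (update σ x0 z) (update τ x0 z')` then (i) `Nb G σ A z ↔ Nb H τ A z'` (formulas `adj a x0`), (ii) `In0 ↔ In0` (formulas `eq x0 a`), (iii) `deg0 G σ A z = deg0 H τ A z'`:
`ag_bij` for the variable `x1` gives `f : V ≃ W` with `Ag (update (update σ x0 z) x1 w) (update (update τ x0 z') x1 (f w))`; `In0 G σ A w ∧ G.Adj z w ↔ In0 H τ A (f w) ∧ H.Adj z' (f w)`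
(read off at the variables `x1`, `a`, `x0`); `Nat.card_congr (f.subtypeEquiv _)`.
`col_inv`: from `col G σ u v = col H τ u' v'` get `Ag (update σ x0 u) (update τ x0 u')`: the assignment `update (update σ x0 u) x1 v` and `ag_copy x1 x3`, the value at `x3` is `σ x3 = σ x1`.
`base_inv`: `ag_bij` for `σ`, `τ`, `x0`.
-/

namespace Pool.Agent.Lib.MP_af3183_lc.VT

open Pool.Agent.Lib.MP_af3183_lc

section

variable {k : ℕ} {V W : Type} {G : SimpleGraph V} {H : SimpleGraph W}
  {σ s : Fin k → V} {τ t : Fin k → W} {A : Finset (Fin k)}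

private theorem nb_in (h : Ag G H s t) (hs : ∀ a ∈ A, s a = σ a) (ht : ∀ a ∈ A, t a = τ a)
    (i : Fin k) : Nb G σ A (s i) ↔ Nb H τ A (t i) := by
  constructor
  · rintro ⟨a, ha, hadj⟩
    refine ⟨a, ha, ?_⟩
    rw [← ht a ha]
    exact (h.adj a i).1 (by rw [hs a ha]; exact hadj)
  · rintro ⟨a, ha, hadj⟩
    refine ⟨a, ha, ?_⟩
    rw [← hs a ha]
    exact (h.adj a i).2 (by rw [ht a ha]; exact hadj)

private theorem in_in (h : Ag G H s t) (hs : ∀ a ∈ A, s a = σ a) (ht : ∀ a ∈ A, t a = τ a)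
    (i : Fin k) : In0 G σ A (s i) ↔ In0 H τ A (t i) := by
  unfold In0
  refine and_congr ?_ (not_congr (nb_in h hs ht i))
  refine forall₂_congr fun a ha => not_congr ?_
  rw [← hs a ha, ← ht a ha]
  exact h.eq i a

private theorem deg_in [Finite V] [Finite W] (h : Ag G H s t) (hs : ∀ a ∈ A, s a = σ a)
    (ht : ∀ a ∈ A, t a = τ a) (i j : Fin k) (hij : i ≠ j) (hj : j ∉ A) :
    deg0 G σ A (s i) = deg0 H τ A (t i) := by
  obtain ⟨f, hf⟩ := ag_bij h j
  refine Nat.card_congr (f.subtypeEquiv fun w => ?_)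
  have h1 := hf w
  have hs' : ∀ a ∈ A, Function.update s j w a = σ a := by
    intro a ha
    rw [Function.update_of_ne (by rintro rfl; exact hj ha)]
    exact hs a ha
  have ht' : ∀ a ∈ A, Function.update t j (f w) a = τ a := by
    intro a ha
    rw [Function.update_of_ne (by rintro rfl; exact hj ha)]
    exact ht a ha
  have h2 := in_in h1 hs' ht' j
  rw [Function.update_self, Function.update_self] at h2
  have h3 := h1.adj i j
  rw [Function.update_self, Function.update_self, Function.update_of_ne hij,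
    Function.update_of_ne hij] at h3
  exact and_congr h2 h3

end

private theorem x01 {k : ℕ} : (x0 : Fin (k + 4)) ≠ x1 := by
  intro h
  have := congrArg Fin.val h
  simp at this

private theorem ne_x0 {k : ℕ} {a : Fin (k + 4)} (ha : 4 ≤ (a : ℕ)) : a ≠ x0 := by
  rintro rfl
  simp at ha

private theorem ne_x1 {k : ℕ} {a : Fin (k + 4)} (ha : 4 ≤ (a : ℕ)) : a ≠ x1 := by
  rintro rfl
  simp at ha

theorem key_inv {k : ℕ} {V W : Type} [Finite V] [Finite W] {G : SimpleGraph V} {H : SimpleGraph W}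
    {σ : Fin (k + 4) → V} {τ : Fin (k + 4) → W} {A : Finset (Fin (k + 4))} (hA : ∀ a ∈ A, 4 ≤ (a : ℕ)) {z : V} {z' : W}
    (h : Ag G H (Function.update σ x0 z) (Function.update τ x0 z')) :
    (Nb G σ A z ↔ Nb H τ A z') ∧ (In0 G σ A z ↔ In0 H τ A z') ∧ deg0 G σ A z = deg0 H τ A z' := by
  have hs : ∀ a ∈ A, Function.update σ x0 z a = σ a := fun a ha =>
    Function.update_of_ne (ne_x0 (hA a ha)) _ _
  have ht : ∀ a ∈ A, Function.update τ x0 z' a = τ a := fun a ha =>
    Function.update_of_ne (ne_x0 (hA a ha)) _ _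
  have h1 := nb_in h hs ht x0
  have h2 := in_in h hs ht x0
  have h3 := deg_in h hs ht x0 x1 x01 (fun hx => ne_x1 (hA _ hx) rfl)
  rw [Function.update_self, Function.update_self] at h1 h2 h3
  exact ⟨h1, h2, h3⟩

theorem col_inv {k : ℕ} {V W : Type} [Finite V] [Finite W] {G : SimpleGraph V} {H : SimpleGraph W}
    {σ : Fin (k + 4) → V} {τ : Fin (k + 4) → W} {A : Finset (Fin (k + 4))} (hA : ∀ a ∈ A, 4 ≤ (a : ℕ))
    (hσ : σ x1 = σ x3) (hτ : τ x1 = τ x3) {u v : V} {u' v' : W} (h : col G σ u v = col H τ u' v') :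
    (In0 G σ A u ↔ In0 H τ A u') ∧ deg0 G σ A u = deg0 H τ A u' := by
  have hag := tp_eq.1 h
  have hs : ∀ a ∈ A, Function.update (Function.update σ x0 u) x1 v a = σ a := fun a ha => by
    rw [Function.update_of_ne (ne_x1 (hA a ha)), Function.update_of_ne (ne_x0 (hA a ha))]
  have ht : ∀ a ∈ A, Function.update (Function.update τ x0 u') x1 v' a = τ a := fun a ha => by
    rw [Function.update_of_ne (ne_x1 (hA a ha)), Function.update_of_ne (ne_x0 (hA a ha))]
  have h2 := in_in hag hs ht x0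
  have h3 := deg_in hag hs ht x0 x1 x01 (fun hx => ne_x1 (hA _ hx) rfl)
  rw [Function.update_of_ne x01, Function.update_of_ne x01, Function.update_self,
    Function.update_self] at h2 h3
  exact ⟨h2, h3⟩

theorem base_inv {k : ℕ} {V W : Type} [Finite V] [Finite W] {G : SimpleGraph V} {H : SimpleGraph W}
    {σ : Fin (k + 4) → V} {τ : Fin (k + 4) → W} {A : Finset (Fin (k + 4))} (hA : ∀ a ∈ A, 4 ≤ (a : ℕ)) (h : Ag G H σ τ) :
    ∃ f : V ≃ W, ∀ z, (Nb G σ A z ↔ Nb H τ A (f z)) ∧ (In0 G σ A z ↔ In0 H τ A (f z)) ∧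
      deg0 G σ A z = deg0 H τ A (f z) := by
  obtain ⟨f, hf⟩ := ag_bij h x0
  exact ⟨f, fun z => key_inv hA (hf z)⟩

end Pool.Agent.Lib.MP_af3183_lc.VT
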