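import Pool.Agent.Lib.MP_af3183_lc.VT.GauB

/-!
# VT-Rnd: rounding nearly antipodal vectors (Karger-Motwani-Sudan)
`g` standard Gaussian (probability measure), `A i = {g | c ≤ ⟨v i, g⟩}`. `P(A i) ≥ 2x` (`std_lower`, `h1`). For adjacent `i, j ∈ S`: `A i ∩ A j ⊆ {g | 2c ≤ ⟨v i + v j, g⟩}`, probability `≤ exp(-(2c)²/(2·4x)) = exp(-c²/(2x))`
(`std_upper`). `I(g) = {i ∈ S | g ∈ A i, g ∉ A j for all neighbours j ∈ S}` is independent and `|I(g)| ≥ ∑_{i ∈ S} (1_{A i}(g) - ∑_{j ∈ S, j ~ i} 1_{A i ∩ A j}(g))`. The integral of the right side is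
`≥ |S| (2x - D exp(-c²/(2x))) ≥ (3/2) x |S|`, so some `g` has `|I(g)| ≥ (3/2) x |S|` (`MeasureTheory.exists_integral_le`-type lemma; integrals of indicators, `integral_finset_sum`).
-/

/-!
# VT-Rnd: rounding nearly antipodal vectors (Karger-Motwani-Sudan)
`g` standard Gaussian (probability measure), `A i = {g | c ≤ ⟨v i, g⟩}`. `P(A i) ≥ 2x` (`std_lower`, `h1`). For adjacent `i, j ∈ S`: `A i ∩ A j ⊆ {g | 2c ≤ ⟨v i + v j, g⟩}`, probability `≤ exp(-(2c)²/(2·4x)) = exp(-c²/(2x))`
(`std_upper`). `I(g) = {i ∈ S | g ∈ A i, g ∉ A j for all neighbours j ∈ S}` is independent and `|I(g)| ≥ ∑_{i ∈ S} (1_{A i}(g) - ∑_{j ∈ S, j ~ i} 1_{A i ∩ A j}(g))`. The integral of the right side is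
`≥ |S| (2x - D exp(-c²/(2x))) ≥ (3/2) x |S|`, so some `g` has `|I(g)| ≥ (3/2) x |S|` (`MeasureTheory.exists_integral_le`-type lemma; integrals of indicators, `integral_finset_sum`).
-/

namespace Pool.Agent.Lib.MP_af3183_lc.VT

open MeasureTheory ProbabilityTheory
open scoped NNReal RealInnerProductSpace Classical

theorem round_indep {W : Type} [Fintype W] (G : SimpleGraph W) (S : Finset W) (v : W → EuclideanSpace ℝ W) {c x : ℝ}
    (hc : 0 < c) (hx : 0 < x) (hv : ∀ i ∈ S, ‖v i‖ = 1) (hadj : ∀ i ∈ S, ∀ j ∈ S, G.Adj i j → ‖v i + v j‖ ^ 2 ≤ 4 * x) (D : ℕ)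
    (hD : ∀ i ∈ S, (S.filter fun j => G.Adj i j).card ≤ D) (h1 : 2 * x ≤ 1 / 3 * Real.exp (-(c + 1) ^ 2 / 2))
    (h2 : D * Real.exp (-c ^ 2 / (2 * x)) ≤ x / 2) :
    ∃ I ⊆ S, (∀ i ∈ I, ∀ j ∈ I, ¬ G.Adj i j) ∧ 3 / 2 * x * (S.card : ℝ) ≤ I.card := by
  set μ : Measure (EuclideanSpace ℝ W) := stdGaussian (EuclideanSpace ℝ W) with hμ
  set A : W → Set (EuclideanSpace ℝ W) := fun i => {g | c ≤ ⟪v i, g⟫} with hA
  have hAm : ∀ i, MeasurableSet (A i) := by
    intro i
    exact (isClosed_le continuous_const (Continuous.inner continuous_const continuous_id)).measurableSet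
  set F : EuclideanSpace ℝ W → ℝ := fun g => ∑ i ∈ S, ((A i).indicator (fun _ => (1 : ℝ)) g -
    ∑ j ∈ S.filter (fun j => G.Adj i j), (A i ∩ A j).indicator (fun _ => (1 : ℝ)) g) with hF
  have hint : ∀ s : Set (EuclideanSpace ℝ W), MeasurableSet s →
      Integrable (s.indicator (fun _ => (1 : ℝ))) μ := by
    intro s hs
    exact (integrable_const (1 : ℝ)).indicator hs
  have hval : ∀ s : Set (EuclideanSpace ℝ W), MeasurableSet s →
      ∫ g, s.indicator (fun _ => (1 : ℝ)) g ∂μ = μ.real s := by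
    intro s hs
    rw [integral_indicator_const (1 : ℝ) hs, smul_eq_mul, mul_one]
  have hsum : ∀ i, Integrable (fun g => ∑ j ∈ S.filter (fun j => G.Adj i j),
      (A i ∩ A j).indicator (fun _ => (1 : ℝ)) g) μ := by
    intro i
    exact integrable_finsetSum _ fun j _ => hint _ ((hAm i).inter (hAm j))
  have hti : ∀ i, Integrable (fun g => (A i).indicator (fun _ => (1 : ℝ)) g -
      ∑ j ∈ S.filter (fun j => G.Adj i j), (A i ∩ A j).indicator (fun _ => (1 : ℝ)) g) μ := by
    intro i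
    exact (hint _ (hAm i)).sub (hsum i)
  have hFi : Integrable F μ := integrable_finsetSum _ fun i _ => hti i
  have hFv : ∫ g, F g ∂μ = ∑ i ∈ S, (μ.real (A i) - ∑ j ∈ S.filter (fun j => G.Adj i j), μ.real (A i ∩ A j)) := by
    simp only [hF]
    rw [integral_finsetSum _ fun i _ => hti i]
    refine Finset.sum_congr rfl fun i _ => ?_
    rw [integral_sub (hint _ (hAm i)) (hsum i), hval _ (hAm i),
      integral_finsetSum _ fun j _ => hint _ ((hAm i).inter (hAm j))]
    congr 1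
    exact Finset.sum_congr rfl fun j _ => hval _ ((hAm i).inter (hAm j))
  have hlow : 3 / 2 * x * (S.card : ℝ) ≤ ∫ g, F g ∂μ := by
    rw [hFv]
    have hterm : ∀ i ∈ S, 3 / 2 * x ≤
        μ.real (A i) - ∑ j ∈ S.filter (fun j => G.Adj i j), μ.real (A i ∩ A j) := by
      intro i hi
      have e1 : 2 * x ≤ μ.real (A i) := h1.trans (std_lower (hv i hi) hc.le)
      have e2 : ∀ j ∈ S.filter (fun j => G.Adj i j), μ.real (A i ∩ A j) ≤ Real.exp (-c ^ 2 / (2 * x)) := by
        intro j hj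
        rw [Finset.mem_filter] at hj
        have hle := hadj i hi j hj.1 hj.2
        have hsub : A i ∩ A j ⊆ {g | 2 * c ≤ ⟪v i + v j, g⟫} := by
          rintro g ⟨hg1, hg2⟩
          have hg1' : c ≤ ⟪v i, g⟫ := hg1
          have hg2' : c ≤ ⟪v j, g⟫ := hg2
          change 2 * c ≤ ⟪v i + v j, g⟫
          rw [inner_add_left]
          linarith
        have h3 := measureReal_mono (μ := μ) hsub (measure_ne_top μ _)
        have h4 := std_upper (v := v i + v j) (s := 4 * x) (t := 2 * c) (by linarith) hle (by linarith)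
        have h5 : -(2 * c) ^ 2 / (2 * (4 * x)) = -c ^ 2 / (2 * x) := by
          field_simp
          ring
        rw [h5] at h4
        exact h3.trans h4
      have e3 : ∑ j ∈ S.filter (fun j => G.Adj i j), μ.real (A i ∩ A j) ≤ D * Real.exp (-c ^ 2 / (2 * x)) := by
        refine (Finset.sum_le_sum e2).trans ?_
        rw [Finset.sum_const, nsmul_eq_mul]
        exact mul_le_mul_of_nonneg_right (by exact_mod_cast hD i hi) (Real.exp_pos _).le
      linarith
    have h6 := Finset.sum_le_sum hterm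
    rw [Finset.sum_const, nsmul_eq_mul] at h6
    linarith
  obtain ⟨g, hg⟩ := exists_integral_le hFi
  refine ⟨S.filter fun i => g ∈ A i ∧ ∀ j ∈ S, G.Adj i j → g ∉ A j, Finset.filter_subset _ _, ?_, ?_⟩
  · intro i hi j hj hij
    rw [Finset.mem_filter] at hi hj
    exact hi.2.2 j hj.1 hij hj.2.1
  · refine (hlow.trans hg).trans ?_
    rw [Finset.card_filter]
    push_cast
    simp only [hF]
    refine Finset.sum_le_sum fun i hi => ?_
    have hnn : ∀ j ∈ S.filter (fun j => G.Adj i j), (0 : ℝ) ≤ (A i ∩ A j).indicator (fun _ => (1 : ℝ)) g :=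
      fun j _ => Set.indicator_nonneg (fun _ _ => zero_le_one) _
    by_cases hgi : g ∈ A i
    · by_cases hall : ∀ j ∈ S, G.Adj i j → g ∉ A j
      · rw [if_pos ⟨hgi, hall⟩, Set.indicator_of_mem hgi]
        have := Finset.sum_nonneg hnn
        linarith
      · rw [if_neg (fun h => hall h.2), Set.indicator_of_mem hgi]
        push Not at hall
        obtain ⟨j, hj, hij, hgj⟩ := hall
        have h7 := Finset.single_le_sum hnn (Finset.mem_filter.2 ⟨hj, hij⟩)
        have h8 : (A i ∩ A j).indicator (fun _ => (1 : ℝ)) g = 1 :=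
          Set.indicator_of_mem (show g ∈ A i ∩ A j from ⟨hgi, hgj⟩) _
        rw [h8] at h7
        linarith
    · rw [if_neg (fun h => hgi h.1), Set.indicator_of_notMem hgi]
      have := Finset.sum_nonneg hnn
      linarith

end Pool.Agent.Lib.MP_af3183_lc.VT
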