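import Pool.Agent.Lib.MP_af3183_lc.VT.HalA
import Pool.Agent.Lib.MP_af3183_lc.VT.Rnd

/-!
# VT-HalB: Halperin's accounting
`p u = P u u`. If `j ≤ 0`: all `p u ≥ 0` with sum `j`, so `j = 0`; `I = ∅`. Let `j > 0`, `vv` from `exists_vec`.
`S1 = {u ∈ R | p u ≤ (1-x)/2}`, `S2 = {u ∈ R | (1-x)/2 < p u ≤ (1+x)/2}`, `S3 = {u ∈ R | (1+x)/2 < p u}`. For adjacent `u, v`: `1 - p u - p v ≥ 0`. `S3` is independent and has no neighbour in `S2`
(`p u + p v > (1+x)/2 + (1-x)/2 = 1`). In `S2` adjacent vertices have `‖vv u + vv v‖² ≤ 4x`. `round_indep` for `S2` gives `I2 ⊆ S2`, `|I2| ≥ (3/2) x |S2|`. `I = S3 ∪ I2`: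
`|R| - |I| = |S1| + |S2| - |I2| ≤ |S1| + (1 - 3x/2)|S2| ≤ (2-x) (|S1| (1+x)/2 + |S2| (1-x)/2) ≤ (2-x) ∑_{u ∈ R} (1 - p u) = (2-x)(|R| - j)`
(`(2-x)(1+x)/2 ≥ 1`, `(2-x)(1-x)/2 ≥ 1 - 3x/2`; `p u = 0` outside of `R`; `p u ≤ 1`).
-/

namespace Pool.Agent.Lib.MP_af3183_lc.VT

open scoped Classical

theorem halperin {W : Type} [Fintype W] (G : SimpleGraph W) (R : Finset W) (P : W → W → ℝ) (Y : Matrix W W ℝ)
    (hY : Y.transpose = Y) (hYY : ∀ u v, (Y * Y) u v = P u v) {j : ℝ} (hedge : ∀ u v, G.Adj u v → P u v = 0)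
    (hrow : ∀ u, ∑ w, P u w = j * P u u) (hdiag : ∑ u, P u u = j) (h0 : ∀ u, 0 ≤ P u u) (h1 : ∀ u, P u u ≤ 1)
    (hR : ∀ u, u ∉ R → P u u = 0) {x c : ℝ} (hx : 0 < x) (hx1 : x ≤ 1 / 64) (hc : 0 < c) (D : ℕ)
    (hD : ∀ u ∈ R, (R.filter fun v => G.Adj u v).card ≤ D) (hl : 2 * x ≤ 1 / 3 * Real.exp (-(c + 1) ^ 2 / 2))
    (hu : D * Real.exp (-c ^ 2 / (2 * x)) ≤ x / 2) :
    ∃ I ⊆ R, (∀ u ∈ I, ∀ v ∈ I, ¬ G.Adj u v) ∧ (R.card : ℝ) - I.card ≤ (2 - x) * (R.card - j) := by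
  have hRsum : ∑ u ∈ R, P u u = j := by
    rw [← hdiag]
    exact Finset.sum_subset (Finset.subset_univ R) fun u _ hu => hR u hu
  rcases le_or_gt j 0 with hj | hj
  · have hj0 : j = 0 := le_antisymm hj (by rw [← hdiag]; exact Finset.sum_nonneg fun u _ => h0 u)
    refine ⟨∅, Finset.empty_subset _, by simp, ?_⟩
    have h2 : (0 : ℝ) ≤ R.card := Nat.cast_nonneg _
    rw [hj0, Finset.card_empty]
    push_cast
    nlinarith
  obtain ⟨vv, hv1, hv2⟩ := exists_vec G P Y hY hYY hj hedge hrow hdiag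
  have hadj : ∀ u v, G.Adj u v → P u u + P v v ≤ 1 := by
    intro u v huv
    have h2 := hv2 u v huv
    have h3 := sq_nonneg ‖vv u + vv v‖
    linarith
  obtain ⟨S1, hS1⟩ : ∃ S1 : Finset W, S1 = R.filter fun u => P u u ≤ (1 - x) / 2 := ⟨_, rfl⟩
  obtain ⟨S2, hS2⟩ : ∃ S2 : Finset W, S2 = R.filter fun u => (1 - x) / 2 < P u u ∧ P u u ≤ (1 + x) / 2 :=
    ⟨_, rfl⟩
  obtain ⟨S3, hS3⟩ : ∃ S3 : Finset W, S3 = R.filter fun u => (1 + x) / 2 < P u u := ⟨_, rfl⟩
  obtain ⟨I2, hI2s, hI2i, hI2c⟩ := round_indep G S2 vv hc hx (fun i _ => hv1 i) (by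
    intro i hi k hk hik
    rw [hS2, Finset.mem_filter] at hi hk
    rw [hv2 i k hik]
    linarith [hi.2.1, hk.2.1]) D (by
    intro i hi
    have hiR : i ∈ R := by rw [hS2, Finset.mem_filter] at hi; exact hi.1
    refine (Finset.card_le_card ?_).trans (hD i hiR)
    intro k hk
    rw [Finset.mem_filter] at hk ⊢
    refine ⟨?_, hk.2⟩
    have := hk.1
    rw [hS2, Finset.mem_filter] at this
    exact this.1) hl hu
  have hd23 : Disjoint S3 I2 := by
    rw [Finset.disjoint_left]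
    intro u hu1 hu2
    have h3 := hI2s hu2
    rw [hS3, Finset.mem_filter] at hu1
    rw [hS2, Finset.mem_filter] at h3
    linarith [hu1.2, h3.2.2]
  refine ⟨S3 ∪ I2, ?_, ?_, ?_⟩
  · intro u hu1
    rw [Finset.mem_union] at hu1
    rcases hu1 with h | h
    · rw [hS3, Finset.mem_filter] at h
      exact h.1
    · have h3 := hI2s h
      rw [hS2, Finset.mem_filter] at h3
      exact h3.1
  · have hlow : ∀ u ∈ S3 ∪ I2, (1 - x) / 2 < P u u := by
      intro u hu1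
      rw [Finset.mem_union] at hu1
      rcases hu1 with h | h
      · rw [hS3, Finset.mem_filter] at h
        linarith [h.2]
      · have h3 := hI2s h
        rw [hS2, Finset.mem_filter] at h3
        exact h3.2.1
    have hhigh : ∀ u ∈ S3, ∀ v ∈ S3 ∪ I2, P u u + P v v ≤ 1 → False := by
      intro u hu1 v hv3 h3
      rw [hS3, Finset.mem_filter] at hu1
      linarith [hu1.2, hlow v hv3]
    intro u hu1 v hv3 huv
    have h3 := hadj u v huv
    rcases Finset.mem_union.1 hu1 with h | h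
    · exact hhigh u h v hv3 h3
    · rcases Finset.mem_union.1 hv3 with h4 | h4
      · exact hhigh v h4 u hu1 (by linarith)
      · exact hI2i u h v h4 huv
  · rw [Finset.card_union_of_disjoint hd23]
    push_cast
    have hsplit : ∀ f : W → ℝ, ∑ u ∈ R, f u = ∑ u ∈ S1, f u + ∑ u ∈ S2, f u + ∑ u ∈ S3, f u := by
      intro f
      rw [hS1, hS2, hS3, Finset.sum_filter, Finset.sum_filter, Finset.sum_filter,
        ← Finset.sum_add_distrib, ← Finset.sum_add_distrib]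
      refine Finset.sum_congr rfl fun u _ => ?_
      by_cases c1 : P u u ≤ (1 - x) / 2
      · have c2 : ¬ ((1 - x) / 2 < P u u ∧ P u u ≤ (1 + x) / 2) := fun h => by linarith [h.1]
        have c3 : ¬ ((1 + x) / 2 < P u u) := fun h => by linarith
        rw [if_pos c1, if_neg c2, if_neg c3]
        ring
      · by_cases c3 : (1 + x) / 2 < P u u
        · have c2 : ¬ ((1 - x) / 2 < P u u ∧ P u u ≤ (1 + x) / 2) := fun h => by linarith [h.2]
          rw [if_neg c1, if_neg c2, if_pos c3]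
          ring
        · have c2 : (1 - x) / 2 < P u u ∧ P u u ≤ (1 + x) / 2 := ⟨not_le.1 c1, not_lt.1 c3⟩
          rw [if_neg c1, if_pos c2, if_neg c3]
          ring
    have hcard : (R.card : ℝ) = S1.card + S2.card + S3.card := by
      have h3 := hsplit fun _ => 1
      simpa using h3
    have hsum : (R.card : ℝ) - j = ∑ u ∈ R, (1 - P u u) := by
      rw [Finset.sum_sub_distrib, hRsum]
      simp
    have e1 : (S1.card : ℝ) * ((1 + x) / 2) ≤ ∑ u ∈ S1, (1 - P u u) := by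
      rw [← nsmul_eq_mul, ← Finset.sum_const]
      refine Finset.sum_le_sum fun u hu1 => ?_
      rw [hS1, Finset.mem_filter] at hu1
      linarith [hu1.2]
    have e2 : (S2.card : ℝ) * ((1 - x) / 2) ≤ ∑ u ∈ S2, (1 - P u u) := by
      rw [← nsmul_eq_mul, ← Finset.sum_const]
      refine Finset.sum_le_sum fun u hu1 => ?_
      rw [hS2, Finset.mem_filter] at hu1
      linarith [hu1.2.2]
    have e3 : (0 : ℝ) ≤ ∑ u ∈ S3, (1 - P u u) :=
      Finset.sum_nonneg fun u _ => sub_nonneg.2 (h1 u)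
    have e4 : (S1.card : ℝ) * ((1 + x) / 2) + S2.card * ((1 - x) / 2) ≤ R.card - j := by
      rw [hsum, hsplit]
      linarith
    have e5 := mul_le_mul_of_nonneg_left e4 (show (0 : ℝ) ≤ 2 - x by linarith)
    have n1 : (0 : ℝ) ≤ S1.card := Nat.cast_nonneg _
    have n2 : (0 : ℝ) ≤ S2.card := Nat.cast_nonneg _
    have e6 : (S1.card : ℝ) ≤ (2 - x) * (S1.card * ((1 + x) / 2)) := by
      have : (2 - x) * (S1.card * ((1 + x) / 2)) - (S1.card : ℝ) = S1.card * (x * (1 - x) / 2) := by ring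
      have h3 : 0 ≤ (S1.card : ℝ) * (x * (1 - x) / 2) := by
        apply mul_nonneg n1
        apply div_nonneg _ (by norm_num)
        apply mul_nonneg hx.le
        linarith
      linarith
    have e7 : (S2.card : ℝ) * (1 - 3 / 2 * x) ≤ (2 - x) * (S2.card * ((1 - x) / 2)) := by
      have : (2 - x) * (S2.card * ((1 - x) / 2)) - (S2.card : ℝ) * (1 - 3 / 2 * x) =
          S2.card * (x ^ 2 / 2) := by ring
      have h3 : 0 ≤ (S2.card : ℝ) * (x ^ 2 / 2) := mul_nonneg n2 (by positivity)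
      linarith
    rw [hcard] at e5 ⊢
    nlinarith [e5, e6, e7, hI2c]

end Pool.Agent.Lib.MP_af3183_lc.VT
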