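import Pool.Agent.Lib.MP_af3183_lc.VT.Defs

/-!
# VT-Ind: choice of the centres; the base assignment
* `greedy`: among the subsets `I ⊆ J` with `|I| (D + 1) ≤ |N(I)|`, `N(I) = {z | ∃ i ∈ I, H.Adj i z}` (the empty set is one), take one of maximal cardinality. `I` and `N(I)` are disjoint (`J` is independent), so
  `|I| (D + 1) ≤ |V|`. If `y ∈ J`, `y ∉ I` had `≥ D + 1` neighbours outside of `N(I)`, `insert y I` would be a larger such set.
* `exists_base`: `I` is the image of an injective list; `σ i = ` the `(i - 4)`-th element of `I` (`I.equivFin`) if `4 ≤ i` and `i - 4 < |I|`, else a fixed vertex; `A = {i | 4 ≤ i ∧ i - 4 < |I|}`.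
-/

namespace Pool.Agent.Lib.MP_af3183_lc.VT

open Pool.Agent.Lib.MP_af3183_lc

theorem greedy {V : Type} [Fintype V] (H : SimpleGraph V) (J : Finset V) (hJ : ∀ u ∈ J, ∀ v ∈ J, ¬ H.Adj u v) (D : ℕ) :
    ∃ I ⊆ J, I.card * (D + 1) ≤ Fintype.card V ∧
      ∀ y ∈ J, y ∉ I → Nat.card {z : V // (∀ i ∈ I, ¬ H.Adj i z) ∧ H.Adj y z} ≤ D := by
  classical
  let N : Finset V → Finset V := fun I => Finset.univ.filter fun z => ∃ i ∈ I, H.Adj i z
  let P : Finset (Finset V) := J.powerset.filter fun I => I.card * (D + 1) ≤ (N I).card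
  have hne : P.Nonempty := ⟨∅, by simp [P]⟩
  obtain ⟨I, hI, hmax⟩ := Finset.exists_max_image P Finset.card hne
  have hIJ : I ⊆ J := Finset.mem_powerset.1 (Finset.mem_filter.1 hI).1
  have hIc : I.card * (D + 1) ≤ (N I).card := (Finset.mem_filter.1 hI).2
  refine ⟨I, hIJ, hIc.trans (Finset.card_le_univ _), ?_⟩
  intro y hy hyI
  by_contra hcon
  have hcon' := not_le.1 hcon
  let E : Finset V := Finset.univ.filter fun z => (∀ i ∈ I, ¬ H.Adj i z) ∧ H.Adj y z
  have hE : Nat.card {z : V // (∀ i ∈ I, ¬ H.Adj i z) ∧ H.Adj y z} = E.card := by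
    rw [Nat.card_eq_fintype_card, Fintype.card_subtype]
  rw [hE] at hcon'
  have hd : Disjoint (N I) E := by
    rw [Finset.disjoint_left]
    intro z hz hz'
    obtain ⟨i, hi, hiz⟩ := (Finset.mem_filter.1 hz).2
    exact (Finset.mem_filter.1 hz').2.1 i hi hiz
  have hsub : N I ∪ E ⊆ N (insert y I) := by
    intro z hz
    refine Finset.mem_filter.2 ⟨Finset.mem_univ _, ?_⟩
    rcases Finset.mem_union.1 hz with hz | hz
    · obtain ⟨i, hi, hiz⟩ := (Finset.mem_filter.1 hz).2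
      exact ⟨i, Finset.mem_insert_of_mem hi, hiz⟩
    · exact ⟨y, Finset.mem_insert_self _ _, (Finset.mem_filter.1 hz).2.2⟩
  have hc : (N I).card + E.card ≤ (N (insert y I)).card := by
    rw [← Finset.card_union_of_disjoint hd]
    exact Finset.card_le_card hsub
  have hcard : (insert y I).card = I.card + 1 := Finset.card_insert_of_notMem hyI
  have hmem : insert y I ∈ P := by
    refine Finset.mem_filter.2 ⟨Finset.mem_powerset.2 (Finset.insert_subset hy hIJ), ?_⟩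
    rw [hcard, add_mul, one_mul]
    omega
  have := hmax _ hmem
  omega

theorem exists_base {V : Type} [Nonempty V] (k : ℕ) (I : Finset V) (hI : I.card ≤ k) :
    ∃ (σ : Fin (k + 4) → V) (A : Finset (Fin (k + 4))), (∀ a ∈ A, 4 ≤ (a : ℕ)) ∧ (∀ z, (∃ a ∈ A, σ a = z) ↔ z ∈ I) ∧
      σ x1 = σ x3 ∧ σ x2 = σ x3 := by
  classical
  obtain ⟨v0⟩ := (inferInstance : Nonempty V)
  let f := I.equivFin
  refine ⟨fun i => if h : 4 ≤ (i : ℕ) ∧ (i : ℕ) - 4 < I.card then (f.symm ⟨(i : ℕ) - 4, h.2⟩ : V) else v0,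
    Finset.univ.filter fun i => 4 ≤ (i : ℕ) ∧ (i : ℕ) - 4 < I.card, ?_, ?_, ?_, ?_⟩
  · intro a ha
    exact (Finset.mem_filter.1 ha).2.1
  · intro z
    constructor
    · rintro ⟨a, ha, rfl⟩
      have h := (Finset.mem_filter.1 ha).2
      beta_reduce
      rw [dif_pos h]
      exact (f.symm ⟨(a : ℕ) - 4, h.2⟩).2
    · intro hz
      have hlt : (f ⟨z, hz⟩ : ℕ) < I.card := (f ⟨z, hz⟩).2
      have h : 4 ≤ (f ⟨z, hz⟩ : ℕ) + 4 ∧ (f ⟨z, hz⟩ : ℕ) + 4 - 4 < I.card := by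
        constructor <;> omega
      refine ⟨⟨(f ⟨z, hz⟩ : ℕ) + 4, by omega⟩, Finset.mem_filter.2 ⟨Finset.mem_univ _, h⟩, ?_⟩
      refine (dif_pos h).trans ?_
      have h2 : (⟨(f ⟨z, hz⟩ : ℕ) + 4 - 4, h.2⟩ : Fin I.card) = f ⟨z, hz⟩ := Fin.ext (by simp)
      rw [h2, Equiv.symm_apply_apply]
  · simp
  · simp

end Pool.Agent.Lib.MP_af3183_lc.VT
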