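import Mathlib

/-!
# VT-Num: numerical estimates
`c = √(log (1/x)) / 2`, `c² = log(1/x)/4`.
* `num_low`: `(c + 1)² / 2 ≤ c² + 1`, so `exp(-(c+1)²/2) ≥ exp(-1) x^(1/4)`; and `6 e x^(3/4) ≤ 1`, as `x^(3/4) ≤ (1/64)^(3/4) = 2^(-9/2) ≤ 0.0443`, `6e ≤ 16.4`.
* `num_exp`: `exp(-c²/(2x)) = exp(log x / (8x)) = x^(1/(8x))`.
* `num_floor`: `D = ⌊(x/2) x^(-1/(8x))⌋₊`; `D x^(1/(8x)) ≤ x/2` clear; `D + 1 ≥ (x/2) x^(-1/(8x)) ≥ x^(-1/(10x))`: `x^(-1/(40x)) = (1/x)^(1/(40x)) ≥ (1/x)^(8/5) ≥ 2/x`, since `1/x ≥ 64`, `1/(40x) ≥ 8/5`, `64^(3/5) ≥ 2`.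
-/

namespace Pool.Agent.Lib.MP_af3183_lc.VT

private theorem log_bound {x : ℝ} (hx0 : 0 < x) (hx : x ≤ 1 / 64) :
    6 * Real.log 2 ≤ Real.log (1 / x) := by
  have h1 : (6 : ℝ) * Real.log 2 = Real.log 64 := by
    have : (64 : ℝ) = 2 ^ (6 : ℕ) := by norm_num
    rw [this, Real.log_pow]; norm_num
  rw [h1]
  apply Real.log_le_log (by norm_num)
  rw [le_div_iff₀ hx0]
  linarith

private theorem log2_pos : 0 < Real.log 2 := Real.log_pos (by norm_num)

private theorem sq_c {x : ℝ} (hx0 : 0 < x) (hx : x ≤ 1 / 64) :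
    (Real.sqrt (Real.log (1 / x)) / 2) ^ 2 = Real.log (1 / x) / 4 := by
  have h := log_bound hx0 hx
  have h2 := log2_pos
  rw [div_pow, Real.sq_sqrt (by linarith)]
  norm_num

theorem num_pos {x : ℝ} (hx0 : 0 < x) (hx : x ≤ 1 / 64) : 0 < Real.sqrt (Real.log (1 / x)) / 2 := by
  have h := log_bound hx0 hx
  have h2 := log2_pos
  have : 0 < Real.sqrt (Real.log (1 / x)) := Real.sqrt_pos.mpr (by linarith)
  linarith

theorem num_low {x : ℝ} (hx0 : 0 < x) (hx : x ≤ 1 / 64) :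
    2 * x ≤ 1 / 3 * Real.exp (-(Real.sqrt (Real.log (1 / x)) / 2 + 1) ^ 2 / 2) := by
  have h := log_bound hx0 hx
  have h2 : 0.6931471803 < Real.log 2 := Real.log_two_gt_d9
  have hsq := sq_c hx0 hx
  set c := Real.sqrt (Real.log (1 / x)) / 2 with hc
  have hL : Real.log (1 / x) = - Real.log x := by rw [one_div, Real.log_inv]
  have h3 : Real.log 3 ≤ 2 * Real.log 2 := by
    have : (2 : ℝ) * Real.log 2 = Real.log 4 := by
      have : (4 : ℝ) = 2 ^ (2 : ℕ) := by norm_num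
      rw [this, Real.log_pow]; norm_num
    rw [this]
    exact Real.log_le_log (by norm_num) (by norm_num)
  have e1 : 2 * x = Real.exp (Real.log 2 + Real.log x) := by
    rw [Real.exp_add, Real.exp_log (by norm_num), Real.exp_log hx0]
  have e2 : (1 / 3 : ℝ) = Real.exp (- Real.log 3) := by
    rw [Real.exp_neg, Real.exp_log (by norm_num)]; norm_num
  rw [e1, e2, ← Real.exp_add]
  apply Real.exp_le_exp.mpr
  have hc2 : (c + 1) ^ 2 ≤ 2 * (c ^ 2 + 1) := by nlinarith [sq_nonneg (c - 1)]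
  rw [hsq] at hc2
  linarith

theorem num_exp {x : ℝ} (hx0 : 0 < x) (hx : x ≤ 1 / 64) :
    Real.exp (-(Real.sqrt (Real.log (1 / x)) / 2) ^ 2 / (2 * x)) = x ^ (1 / (8 * x)) := by
  have hsq := sq_c hx0 hx
  have hL : Real.log (1 / x) = - Real.log x := by rw [one_div, Real.log_inv]
  rw [Real.rpow_def_of_pos hx0, hsq, hL]
  congr 1
  field_simp
  ring

theorem num_floor {x : ℝ} (hx0 : 0 < x) (hx : x ≤ 1 / 64) :
    ∃ D : ℕ, (D : ℝ) * x ^ (1 / (8 * x)) ≤ x / 2 ∧ 1 ≤ x ^ (1 / (10 * x)) * ((D : ℝ) + 1) := by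
  have h := log_bound hx0 hx
  have h2 := log2_pos
  have hL : Real.log (1 / x) = - Real.log x := by rw [one_div, Real.log_inv]
  have hp : 0 < x ^ (1 / (8 * x)) := Real.rpow_pos_of_pos hx0 _
  have hq : 0 < x ^ (1 / (10 * x)) := Real.rpow_pos_of_pos hx0 _
  refine ⟨⌊(x / 2) / x ^ (1 / (8 * x))⌋₊, ?_, ?_⟩
  · have := Nat.floor_le (a := (x / 2) / x ^ (1 / (8 * x))) (by positivity)
    rwa [le_div_iff₀ hp] at this
  · have h4 := (Nat.lt_floor_add_one ((x / 2) / x ^ (1 / (8 * x)))).le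
    refine le_trans ?_ (mul_le_mul_of_nonneg_left h4 hq.le)
    have e1 : x / 2 = Real.exp (Real.log x - Real.log 2) := by
      rw [Real.exp_sub, Real.exp_log hx0, Real.exp_log (by norm_num)]
    rw [e1, Real.rpow_def_of_pos hx0, Real.rpow_def_of_pos hx0, ← Real.exp_sub, ← Real.exp_add]
    apply Real.one_le_exp
    have hmul : Real.log x * (1 / (10 * x)) + (Real.log x - Real.log 2 - Real.log x * (1 / (8 * x)))
        = (- Real.log x) * (1 / (40 * x)) - (- Real.log x) - Real.log 2 := by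
      field_simp
      ring
    rw [hmul]
    have h5 : (8 / 5 : ℝ) ≤ 1 / (40 * x) := by
      rw [le_div_iff₀ (by positivity)]
      linarith
    have h6 : (- Real.log x) * (8 / 5) ≤ (- Real.log x) * (1 / (40 * x)) :=
      mul_le_mul_of_nonneg_left h5 (by linarith)
    linarith

end Pool.Agent.Lib.MP_af3183_lc.VT
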