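import Pool.Agent.Lib.MP_af3183_lc.VT.LogA
import Pool.Agent.Lib.MP_af3183_lc.VT.CohA
import Pool.Agent.Lib.MP_af3183_lc.VT.CohB
import Pool.Agent.Lib.MP_af3183_lc.VT.AvB
import Pool.Agent.Lib.MP_af3183_lc.VT.AvC
import Pool.Agent.Lib.MP_af3183_lc.VT.HalB
import Pool.Agent.Lib.MP_af3183_lc.VT.Ind
import Pool.Agent.Lib.MP_af3183_lc.VT.Num

/-! # Assembly -/

namespace Pool.Agent.Lib.MP_af3183_lc.VT

open Pool.Agent.Lib.MP_af3183_lc
open scoped Classical

theorem exists_min_cover {V : Type} [Fintype V] (H : SimpleGraph V) : ∃ S : Finset V, IsCover H S ∧ S.card = vc H := by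
  have hne : {c : ℕ | ∃ S : Finset V, IsCover H S ∧ S.card = c}.Nonempty :=
    ⟨_, Finset.univ, fun u v _ => Or.inl (Finset.mem_univ u), rfl⟩
  exact Nat.sInf_mem hne

/-- The comparison for fixed centres. -/
theorem core {V W : Type} [Fintype V] [Fintype W] {m : ℕ} {H : SimpleGraph V} {G : SimpleGraph W}
    {σ : Fin (m + 4) → V} {τ : Fin (m + 4) → W} (hag : Ag H G σ τ) (hσ1 : σ x1 = σ x3) (hσ2 : σ x2 = σ x3)
    {A : Finset (Fin (m + 4))} (hA : ∀ a ∈ A, 4 ≤ (a : ℕ)) {S0 : Finset V} (hS0 : IsCover H S0) {x : ℝ} (hx : 0 < x)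
    (hx1 : x ≤ 1 / 64) {D : ℕ} (hDx : (D : ℝ) * x ^ (1 / (8 * x)) ≤ x / 2)
    (hcen : ∀ a ∈ A, σ a ∉ S0) (hgr : ∀ y, y ∉ S0 → (∀ a ∈ A, y ≠ σ a) →
      Nat.card {z : V // (∀ a ∈ A, ¬ H.Adj (σ a) z) ∧ H.Adj y z} ≤ D) :
    (vc G : ℝ) ≤ (2 - x) * S0.card := by
  have hτ1 : τ x1 = τ x3 := (hag.eq x1 x3).1 hσ1
  have hτ2 : τ x2 = τ x3 := (hag.eq x2 x3).1 hσ2
  have c11 : Coh (col H σ) (col H σ) := coh_col (Ag.refl H σ) hσ2 hσ2
  have c12 : Coh (col H σ) (col G τ) := coh_col hag hσ2 hτ2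
  set NH : Finset V := Finset.univ.filter fun z => Nb H σ A z with hNH
  set NG : Finset W := Finset.univ.filter fun z => Nb G τ A z with hNG
  set SH : Finset V := Finset.univ.filter fun z => In0 H σ A z ∧ D < deg0 H σ A z with hSH
  set SG : Finset W := Finset.univ.filter fun z => In0 G τ A z ∧ D < deg0 G τ A z with hSG
  set RH : Finset V := Finset.univ.filter fun z => In0 H σ A z ∧ deg0 H σ A z ≤ D with hRH
  set RG : Finset W := Finset.univ.filter fun z => In0 G τ A z ∧ deg0 G τ A z ≤ D with hRG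
  -- the same sizes
  obtain ⟨f, hf⟩ := base_inv hA hag
  have hcard : ∀ (p : V → Prop) (q : W → Prop) [DecidablePred p] [DecidablePred q], (∀ z, p z ↔ q (f z)) →
      (Finset.univ.filter p).card = (Finset.univ.filter q).card := by
    intro p q _ _ hpq
    refine Finset.card_bij (fun z _ => f z) ?_ ?_ ?_
    · intro z hz
      simp only [Finset.mem_filter, Finset.mem_univ, true_and] at hz ⊢
      exact (hpq z).1 hz
    · intro z _ z' _ hzz
      exact f.injective hzz
    · intro w hw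
      refine ⟨f.symm w, ?_, f.apply_symm_apply w⟩
      simp only [Finset.mem_filter, Finset.mem_univ, true_and] at hw ⊢
      rw [hpq, f.apply_symm_apply]
      exact hw
  have hN : NH.card = NG.card := hcard _ _ fun z => (hf z).1
  have hS : SH.card = SG.card := hcard (fun z => In0 H σ A z ∧ D < deg0 H σ A z) (fun z => In0 G τ A z ∧ D < deg0 G τ A z)
    fun z => and_congr (hf z).2.1 (by rw [(hf z).2.2])
  have hR : RH.card = RG.card := hcard (fun z => In0 H σ A z ∧ deg0 H σ A z ≤ D) (fun z => In0 G τ A z ∧ deg0 G τ A z ≤ D)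
    fun z => and_congr (hf z).2.1 (by rw [(hf z).2.2])
  -- the indicator function
  set a : V → ℝ := fun z => if z ∉ S0 ∧ z ∈ RH then 1 else 0 with ha
  have ha01 : ∀ u, a u = 0 ∨ a u = 1 := by
    intro u
    simp only [ha]
    split_ifs
    · exact Or.inr rfl
    · exact Or.inl rfl
  have haa : ∀ u, a u * a u = a u := by
    intro u
    rcases ha01 u with h | h <;> rw [h] <;> norm_num
  have ha0 : ∀ u, 0 ≤ a u := by
    intro u
    rcases ha01 u with h | h <;> rw [h]
    norm_num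
  have ha1 : ∀ u, a u ≤ 1 := by
    intro u
    rcases ha01 u with h | h <;> rw [h]
    norm_num
  have haz : ∀ u, ¬ (u ∉ S0 ∧ u ∈ RH) → a u = 0 := by
    intro u hu
    simp only [ha, if_neg hu]
  obtain ⟨Y, hY, hYY⟩ := exists_gram c11 c12 a
  set P : W → W → ℝ := fun u v => avg (col H σ) a (col G τ u v) with hP
  have hedge : ∀ u v, G.Adj u v → P u v = 0 := by
    intro u v huv
    refine avg_zero ?_
    intro y z hyz
    have hadj : H.Adj y z := (col_adj hyz).2 huv
    rcases hS0 y z hadj with h | h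
    · rw [haz y (fun h' => h'.1 h), zero_mul]
    · rw [haz z (fun h' => h'.1 h), mul_zero]
  have hPR : ∀ u, u ∉ RG → P u u = 0 := by
    intro u hu
    refine avg_zero ?_
    intro y z hyz
    have h1 := col_inv hA hσ1 hτ1 hyz
    have hy : y ∉ RH := by
      intro hy
      apply hu
      simp only [hRH, hRG, Finset.mem_filter, Finset.mem_univ, true_and] at hy ⊢
      rw [← h1.1, ← h1.2]
      exact hy
    rw [haz y (fun h' => hy h'.2), zero_mul]
  have hRD : ∀ u ∈ RG, (RG.filter fun v => G.Adj u v).card ≤ D := by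
    intro u hu
    simp only [hRG, Finset.mem_filter, Finset.mem_univ, true_and] at hu
    refine le_trans ?_ hu.2
    rw [deg0, Nat.card_eq_fintype_card, Fintype.card_subtype]
    refine Finset.card_le_card ?_
    intro v hv
    simp only [hRG, Finset.mem_filter, Finset.mem_univ, true_and] at hv ⊢
    exact ⟨hv.1.1, hv.2⟩
  obtain ⟨I', hI'R, hI', hhal⟩ := halperin G RG P Y hY (fun u v => by rw [hYY]; rfl) (j := ∑ u, a u) hedge
    (fun u => row_W c11 c12 haa u) (diag_W c11 c12 haa) (fun u => avg_nonneg ha0 _) (fun u => avg_le_one ha0 ha1 _)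
    hPR hx hx1 (num_pos hx hx1) D hRD (num_low hx hx1) (by rw [num_exp hx hx1]; exact hDx)
  -- a cover of `G`
  have hcov : IsCover G (NG ∪ SG ∪ (RG \ I')) := by
    have hside : ∀ u v, G.Adj u v → u ∉ NG ∪ SG ∪ (RG \ I') → v ∉ NG ∪ SG ∪ (RG \ I') → u ∈ I' := by
      intro u v huv hu hv
      simp only [Finset.mem_union, Finset.mem_sdiff, not_or] at hu hv
      obtain ⟨⟨hu1, hu2⟩, hu3⟩ := hu
      obtain ⟨⟨hv1, hv2⟩, hv3⟩ := hv
      have hnu : ¬ Nb G τ A u := by
        simpa only [hNG, Finset.mem_filter, Finset.mem_univ, true_and] using hu1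
      have hnv : ¬ Nb G τ A v := by
        simpa only [hNG, Finset.mem_filter, Finset.mem_univ, true_and] using hv1
      have hin : In0 G τ A u := by
        refine ⟨?_, hnu⟩
        intro b hb hub
        exact hnv ⟨b, hb, by rw [← hub]; exact huv⟩
      have hdeg : deg0 G τ A u ≤ D := by
        by_contra hd
        apply hu2
        simp only [hSG, Finset.mem_filter, Finset.mem_univ, true_and]
        exact ⟨hin, not_le.1 hd⟩
      have huR : u ∈ RG := by
        simp only [hRG, Finset.mem_filter, Finset.mem_univ, true_and]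
        exact ⟨hin, hdeg⟩
      by_contra hI
      exact hu3 ⟨huR, hI⟩
    intro u v huv
    by_contra hcon
    rw [not_or] at hcon
    exact hI' u (hside u v huv hcon.1 hcon.2) v (hside v u huv.symm hcon.2 hcon.1) huv
  have hvcG : vc G ≤ NG.card + SG.card + (RG \ I').card := by
    refine (vc_le G _ hcov).trans ?_
    refine (Finset.card_union_le _ _).trans ?_
    exact Nat.add_le_add_right (Finset.card_union_le _ _) _
  have hsd : (RG \ I').card + I'.card = RG.card := Finset.card_sdiff_add_card_eq_card hI'R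
  -- the cover of `H`
  have hNS : NH ⊆ S0 := by
    intro z hz
    simp only [hNH, Finset.mem_filter, Finset.mem_univ, true_and] at hz
    obtain ⟨b, hb, hbz⟩ := hz
    rcases hS0 _ _ hbz with h | h
    · exact absurd h (hcen b hb)
    · exact h
  have hSS : SH ⊆ S0 := by
    intro z hz
    simp only [hSH, Finset.mem_filter, Finset.mem_univ, true_and] at hz
    by_contra hzS
    have h1 := hgr z hzS hz.1.1
    have h2 : deg0 H σ A z ≤ Nat.card {w : V // (∀ b ∈ A, ¬ H.Adj (σ b) w) ∧ H.Adj z w} := by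
      rw [deg0]
      refine Nat.card_le_card_of_injective (fun w => ⟨w.1, ?_, w.2.2⟩) ?_
      · intro b hb hbw
        exact w.2.1.2 ⟨b, hb, hbw⟩
      · intro w w' hww
        simp only [Subtype.mk.injEq] at hww
        exact Subtype.ext hww
    omega
  have hd1 : Disjoint NH SH := by
    rw [Finset.disjoint_left]
    intro z hz hz'
    simp only [hNH, hSH, Finset.mem_filter, Finset.mem_univ, true_and] at hz hz'
    exact hz'.1.2 hz
  have hd2 : Disjoint (NH ∪ SH) (RH \ S0ᶜ) := by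
    rw [Finset.disjoint_left]
    intro z hz hz'
    simp only [hNH, hSH, hRH, Finset.mem_filter, Finset.mem_univ, true_and, Finset.mem_union, Finset.mem_sdiff] at hz hz'
    rcases hz with hz | hz
    · exact hz'.1.1.2 hz
    · omega
  have hsub : NH ∪ SH ∪ (RH \ S0ᶜ) ⊆ S0 := by
    intro z hz
    rcases Finset.mem_union.1 hz with h | h
    · rcases Finset.mem_union.1 h with h | h
      · exact hNS h
      · exact hSS h
    · have := (Finset.mem_sdiff.1 h).2
      simpa using this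
  have hle := Finset.card_le_card hsub
  rw [Finset.card_union_of_disjoint hd2, Finset.card_union_of_disjoint hd1] at hle
  have hj : ∑ u, a u = ((RH ∩ S0ᶜ).card : ℝ) := by
    simp only [ha]
    rw [Finset.sum_boole]
    congr 2
    ext z
    simp only [Finset.mem_filter, Finset.mem_univ, true_and, Finset.mem_inter, Finset.mem_compl]
    tauto
  have hsd2 : (RH \ S0ᶜ).card + (RH ∩ S0ᶜ).card = RH.card := Finset.card_sdiff_add_card_inter RH S0ᶜ
  -- conclusion
  have e1 : (vc G : ℝ) ≤ NG.card + SG.card + (RG.card - I'.card) := by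
    have : ((RG \ I').card : ℝ) = RG.card - I'.card := by rw [← hsd]; push_cast; ring
    rw [← this]
    exact_mod_cast hvcG
  have e2 : (NH.card : ℝ) + SH.card + (RH.card - ∑ u, a u) ≤ S0.card := by
    have : ((RH \ S0ᶜ).card : ℝ) = RH.card - ∑ u, a u := by rw [hj, ← hsd2]; push_cast; ring
    rw [← this]
    exact_mod_cast hle
  rw [hN, hS, hR] at e2
  have h0 : (0 : ℝ) ≤ (NG.card : ℝ) + SG.card := by positivity
  nlinarith

/-- The upper bound for the gap. -/
theorem gap_upper {n k : ℕ} {G H : SimpleGraph (Fin n)} {ε : ℝ} (hε0 : 0 < ε) (hε : ε ≤ 1 / 64)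
    (hk : ε ^ (1 / (10 * ε)) * n + 4 ≤ k) (h : CEquiv k G H) : (vc G : ℝ) ≤ (2 - ε) * vc H := by
  rcases Nat.eq_zero_or_pos n with hn | hn
  · subst hn
    have h0 : vc G ≤ 0 := vc_le G ∅ fun u => u.elim0
    have h1 : (vc G : ℝ) = 0 := by exact_mod_cast Nat.le_zero.1 h0
    rw [h1]
    have : (0 : ℝ) ≤ vc H := Nat.cast_nonneg _
    nlinarith
  have hne : Nonempty (Fin n) := ⟨⟨0, hn⟩⟩
  have hpow : (0 : ℝ) ≤ ε ^ (1 / (10 * ε)) := Real.rpow_nonneg hε0.le _
  have hk4 : 4 ≤ k := by
    have : (4 : ℝ) ≤ k := by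
      have : 0 ≤ ε ^ (1 / (10 * ε)) * n := mul_nonneg hpow (Nat.cast_nonneg _)
      linarith
    exact_mod_cast this
  obtain ⟨m, rfl⟩ := Nat.exists_eq_add_of_le' hk4
  obtain ⟨S0, hS0, hS0c⟩ := exists_min_cover H
  obtain ⟨D, hD1, hD2⟩ := num_floor hε0 hε
  have hJ : ∀ u ∈ S0ᶜ, ∀ v ∈ S0ᶜ, ¬ H.Adj u v := by
    intro u hu v hv huv
    rw [Finset.mem_compl] at hu hv
    rcases hS0 u v huv with h | h
    · exact hu h
    · exact hv h
  obtain ⟨I, hIJ, hIc, hIn⟩ := greedy H S0ᶜ hJ D
  rw [Fintype.card_fin] at hIc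
  have hIm : I.card ≤ m := by
    have h1 : (I.card : ℝ) * (D + 1) ≤ n := by exact_mod_cast hIc
    have h2 : (I.card : ℝ) ≤ ε ^ (1 / (10 * ε)) * n := by
      have h3 : (I.card : ℝ) * 1 ≤ (I.card : ℝ) * (ε ^ (1 / (10 * ε)) * ((D : ℝ) + 1)) :=
        mul_le_mul_of_nonneg_left hD2 (Nat.cast_nonneg _)
      have h4 : ε ^ (1 / (10 * ε)) * ((I.card : ℝ) * (D + 1)) ≤ ε ^ (1 / (10 * ε)) * n :=
        mul_le_mul_of_nonneg_left h1 hpow
      nlinarith
    have h5 : (I.card : ℝ) ≤ m := by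
      push_cast at hk
      linarith
    exact_mod_cast h5
  obtain ⟨σ, A, hA, hσI, hσ1, hσ2⟩ := exists_base m I hIm
  obtain ⟨τ, hτ⟩ := ag_exists (G := H) (H := G) (by omega) (fun φ hφ => (h φ hφ).symm) σ
  have hfin := core hτ hσ1 hσ2 hA hS0 hε0 hε hD1
    (fun b hb => by
      have h1 : σ b ∈ I := (hσI _).1 ⟨b, hb, rfl⟩
      exact Finset.mem_compl.1 (hIJ h1))
    (fun y hy hyA => by
      have h1 : y ∉ I := by
        intro hyI
        obtain ⟨b, hb, hby⟩ := (hσI y).2 hyI
        exact hyA b hb hby.symm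
      refine le_trans (le_of_eq ?_) (hIn y (Finset.mem_compl.2 hy) h1)
      refine Nat.card_congr (Equiv.subtypeEquivRight fun z => and_congr_left fun _ => ?_)
      constructor
      · intro hz i hi
        obtain ⟨b, hb, hbi⟩ := (hσI i).2 hi
        rw [← hbi]
        exact hz b hb
      · intro hz b hb
        exact hz _ ((hσI _).1 ⟨b, hb, rfl⟩))
  rw [hS0c] at hfin
  exact hfin

end Pool.Agent.Lib.MP_af3183_lc.VT
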