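import Pool.Agent.Lib.MP_af3183_lc.Game

/-!
# An upper bound for the vertex cover gap of `C^k`-equivalent graphs: definitions

`Ag G H σ τ`: the assignments `σ`, `τ` satisfy the same formulas of `C^k`.
`Coh T T'`: two colourings of pairs of vertices which are equivalent like the colourings by `C^k`-types.
-/

namespace Pool.Agent.Lib.MP_af3183_lc.VT

open Pool.Agent.Lib.MP_af3183_lc

/-- The assignments `σ` and `τ` satisfy the same formulas of `C^k`. -/
def Ag {k : ℕ} {V W : Type} (G : SimpleGraph V) (H : SimpleGraph W) (σ : Fin k → V) (τ : Fin k → W) : Prop :=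
  ∀ φ : CForm k, φ.Sat G σ ↔ φ.Sat H τ

section

variable {k : ℕ} {U V W : Type} {F : SimpleGraph U} {G : SimpleGraph V} {H : SimpleGraph W}
  {ρ : Fin k → U} {σ : Fin k → V} {τ : Fin k → W}

theorem Ag.refl (G : SimpleGraph V) (σ : Fin k → V) : Ag G G σ σ := fun _ => Iff.rfl

theorem Ag.symm (h : Ag G H σ τ) : Ag H G τ σ := fun φ => (h φ).symm

theorem Ag.trans (h : Ag F G ρ σ) (h' : Ag G H σ τ) : Ag F H ρ τ := fun φ => (h φ).trans (h' φ)

theorem Ag.eq (h : Ag G H σ τ) (i j : Fin k) : σ i = σ j ↔ τ i = τ j := h (CForm.eq i j)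

theorem Ag.adj (h : Ag G H σ τ) (i j : Fin k) : G.Adj (σ i) (σ j) ↔ H.Adj (τ i) (τ j) := h (CForm.adj i j)

end

/-- The type of an assignment: the set of the formulas which it satisfies. -/
def tp {k : ℕ} {V : Type} (G : SimpleGraph V) (σ : Fin k → V) : CForm k → Prop := fun φ => φ.Sat G σ

theorem tp_eq {k : ℕ} {V W : Type} {G : SimpleGraph V} {H : SimpleGraph W} {σ : Fin k → V} {τ : Fin k → W} :
    tp G σ = tp H τ ↔ Ag G H σ τ := by
  constructor
  · intro h φ
    exact iff_of_eq (congrFun h φ)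
  · intro h
    funext φ
    exact propext (h φ)

/-- Equivalent colourings of pairs. -/
structure Coh {V W K : Type} (T : V → V → K) (T' : W → W → K) : Prop where
  bij : ∀ u v u' v', T u v = T' u' v' → ∃ f : V ≃ W, ∀ w, T u w = T' u' (f w) ∧ T w v = T' (f w) v'
  swap : ∀ u v u' v', T u v = T' u' v' → T v u = T' v' u'
  diag : ∀ u v u' v', T u v = T' u' v' → (u = v ↔ u' = v')
  base : ∃ f : V ≃ W, ∀ v, T v v = T' (f v) (f v)

/-- The working variables. -/
abbrev x0 {k : ℕ} : Fin (k + 4) := ⟨0, by omega⟩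
abbrev x1 {k : ℕ} : Fin (k + 4) := ⟨1, by omega⟩
abbrev x2 {k : ℕ} : Fin (k + 4) := ⟨2, by omega⟩
abbrev x3 {k : ℕ} : Fin (k + 4) := ⟨3, by omega⟩

/-- The colour of the pair `(u, v)`: the type of the assignment `σ` with `x₀ ↦ u`, `x₁ ↦ v`. -/
def col {k : ℕ} {V : Type} (G : SimpleGraph V) (σ : Fin (k + 4) → V) (u v : V) : CForm (k + 4) → Prop :=
  tp G (Function.update (Function.update σ x0 u) x1 v)

/-- `z` is not adjacent to a centre. The centres are the vertices `σ a`, `a ∈ A`. -/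
def Nb {k : ℕ} {V : Type} (G : SimpleGraph V) (σ : Fin k → V) (A : Finset (Fin k)) (z : V) : Prop :=
  ∃ a ∈ A, G.Adj (σ a) z

/-- `z` is neither a centre nor adjacent to a centre. -/
def In0 {k : ℕ} {V : Type} (G : SimpleGraph V) (σ : Fin k → V) (A : Finset (Fin k)) (z : V) : Prop :=
  (∀ a ∈ A, z ≠ σ a) ∧ ¬ Nb G σ A z

/-- The number of neighbours of `z` which are neither centres nor adjacent to a centre. -/
noncomputable def deg0 {k : ℕ} {V : Type} (G : SimpleGraph V) (σ : Fin k → V) (A : Finset (Fin k)) (z : V) : ℕ :=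
  Nat.card {w : V // In0 G σ A w ∧ G.Adj z w}

/-- The average of `a u * a v` over the pairs `(u, v)` of colour `c`. -/
noncomputable def avg {V K : Type} [Fintype V] (T : V → V → K) (a : V → ℝ) (c : K) : ℝ :=
  open Classical in
  (∑ p : V × V, if T p.1 p.2 = c then a p.1 * a p.2 else 0) / (∑ p : V × V, if T p.1 p.2 = c then 1 else 0)

end Pool.Agent.Lib.MP_af3183_lc.VT
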