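import Mathlib

/-!
# VT-GauA: tails of the real Gaussian
* `gauss_lower`: `[c, c + 1] ⊆ [c, ∞)`; the density `(√(2π))⁻¹ exp(-y²/2)` is at least `(1/3) exp(-(c+1)²/2)` there (`√(2π) ≤ 3`, `0 ≤ y ≤ c + 1`); `gaussianReal_apply`, `setLIntegral` / `gaussianReal_apply_eq_integral`.
* `gauss_upper`: `ProbabilityTheory.measure_ge_le_exp_mul_mgf` for `X = id` with `λ = t / s`, `mgf_gaussianReal`: the bound is `exp(-λ t + v λ²/2) ≤ exp(-t²/s + t²/(2s))` (`v ≤ s`); also correct for `v = 0`.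
-/

namespace Pool.Agent.Lib.MP_af3183_lc.VT

open MeasureTheory ProbabilityTheory
open scoped NNReal

theorem gauss_lower {c : ℝ} (hc : 0 ≤ c) : 1 / 3 * Real.exp (-(c + 1) ^ 2 / 2) ≤ (gaussianReal 0 1).real (Set.Ici c) := by
  have h1 : (gaussianReal 0 1).real (Set.Icc c (c + 1)) ≤ (gaussianReal 0 1).real (Set.Ici c) :=
    measureReal_mono Set.Icc_subset_Ici_self
  refine le_trans ?_ h1
  have h2 : (gaussianReal 0 1).real (Set.Icc c (c + 1)) =
      ∫ x in Set.Icc c (c + 1), gaussianPDFReal 0 1 x := by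
    rw [Measure.real, gaussianReal_apply_eq_integral 0 one_ne_zero,
      ENNReal.toReal_ofReal (integral_nonneg fun x => gaussianPDFReal_nonneg 0 1 x)]
  have hsq : √(2 * Real.pi) ≤ 3 := by
    rw [Real.sqrt_le_left (by norm_num)]
    have := Real.pi_lt_d2
    nlinarith
  have hsq0 : 0 < √(2 * Real.pi) := Real.sqrt_pos.2 (by positivity)
  have h3 : ∫ x in Set.Icc c (c + 1), (1 / 3 * Real.exp (-(c + 1) ^ 2 / 2)) ≤
      ∫ x in Set.Icc c (c + 1), gaussianPDFReal 0 1 x := by
    refine setIntegral_mono_on ?_ (integrable_gaussianPDFReal 0 1).integrableOn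
      measurableSet_Icc ?_
    · exact integrableOn_const (by rw [Real.volume_Icc]; exact ENNReal.ofReal_ne_top)
    · intro x hx
      rw [gaussianPDFReal_def]
      simp only [NNReal.coe_one, mul_one, sub_zero]
      refine mul_le_mul ?_ ?_ (Real.exp_pos _).le (by positivity)
      · rw [one_div]
        exact inv_anti₀ hsq0 hsq
      · apply Real.exp_le_exp.2
        have hx0 : 0 ≤ x := hc.trans hx.1
        have := hx.2
        nlinarith
  rw [h2]
  refine le_trans (le_of_eq ?_) h3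
  rw [setIntegral_const, Real.volume_real_Icc]
  simp

theorem gauss_upper {t s : ℝ} (ht : 0 < t) (hs : 0 < s) (v : ℝ≥0) (hv : (v : ℝ) ≤ s) :
    (gaussianReal 0 v).real (Set.Ici t) ≤ Real.exp (-t ^ 2 / (2 * s)) := by
  have h := measure_ge_le_exp_mul_mgf (μ := gaussianReal 0 v) (X := id) (t := t / s) t
    (div_pos ht hs).le (integrable_exp_mul_gaussianReal (t / s))
  rw [mgf_id_gaussianReal] at h
  refine le_trans h ?_
  simp only [zero_mul, zero_add]
  rw [← Real.exp_add]
  apply Real.exp_le_exp.2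
  have h1 : (v : ℝ) * (t / s) ^ 2 / 2 ≤ s * (t / s) ^ 2 / 2 := by gcongr
  refine le_trans (add_le_add_right h1 _) (le_of_eq ?_)
  field_simp
  ring

end Pool.Agent.Lib.MP_af3183_lc.VT
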