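import Pool.Agent.Lib.MP_af3183_lc.VT.GauA

/-!
# VT-GauB: the standard Gaussian vector
`std_map`: the law of `⟨v, g⟩` is Gaussian with mean `0` and variance `‖v‖²`: `IsGaussian.map_eq_gaussianReal` for the dual vector `innerSL ℝ v` with `integral_strongDual_stdGaussian`, `variance_dual_stdGaussian`
(`Mathlib/Probability/Distributions/Gaussian/Multivariate.lean`), or by characteristic functions (`charFun_stdGaussian`). Then `std_lower`, `std_upper` from `gauss_lower` (variance `1`), `gauss_upper`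
(`map_measureReal_apply`, the map is continuous).
-/

namespace Pool.Agent.Lib.MP_af3183_lc.VT

open MeasureTheory ProbabilityTheory
open scoped NNReal RealInnerProductSpace

theorem std_map {ι : Type} [Fintype ι] (v : EuclideanSpace ℝ ι) :
    (stdGaussian (EuclideanSpace ℝ ι)).map (fun g => ⟪v, g⟫) = gaussianReal 0 (‖v‖₊ ^ 2) := by
  have h : (fun g : EuclideanSpace ℝ ι => ⟪v, g⟫) = ⇑(innerSL ℝ v) := by
    funext g
    exact (innerSL_apply_apply ℝ v g).symm
  rw [h, IsGaussian.map_eq_gaussianReal, integral_strongDual_stdGaussian,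
    variance_dual_stdGaussian, innerSL_apply_norm]
  congr 1
  rw [← coe_nnnorm, ← NNReal.coe_pow, Real.toNNReal_coe]

theorem std_lower {ι : Type} [Fintype ι] {v : EuclideanSpace ℝ ι} (hv : ‖v‖ = 1) {c : ℝ} (hc : 0 ≤ c) :
    1 / 3 * Real.exp (-(c + 1) ^ 2 / 2) ≤ (stdGaussian (EuclideanSpace ℝ ι)).real {g | c ≤ ⟪v, g⟫} := by
  have h := gauss_lower hc
  have h1 : gaussianReal 0 1 = (stdGaussian (EuclideanSpace ℝ ι)).map (fun g => ⟪v, g⟫) := by
    rw [std_map v]
    congr 1
    have : ‖v‖₊ = 1 := by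
      apply NNReal.coe_injective
      rw [coe_nnnorm, hv, NNReal.coe_one]
    rw [this, one_pow]
  rw [h1, map_measureReal_apply (by fun_prop) measurableSet_Ici] at h
  exact h

theorem std_upper {ι : Type} [Fintype ι] {v : EuclideanSpace ℝ ι} {s t : ℝ} (hs : 0 < s) (hv : ‖v‖ ^ 2 ≤ s) (ht : 0 < t) :
    (stdGaussian (EuclideanSpace ℝ ι)).real {g | t ≤ ⟪v, g⟫} ≤ Real.exp (-t ^ 2 / (2 * s)) := by
  have h := gauss_upper ht hs (‖v‖₊ ^ 2) (by rw [NNReal.coe_pow, coe_nnnorm]; exact hv)
  rw [← std_map v, map_measureReal_apply (by fun_prop) measurableSet_Ici] at h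
  exact h

end Pool.Agent.Lib.MP_af3183_lc.VT
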