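import Mathlib

/-!
# VT-HalA: unit vectors from the Gram matrix
`m u : EuclideanSpace ℝ W` = row `u` of `Y` (`WithLp.toLp 2 (Y u)`); `⟨m u, m v⟩ = ∑ w, Y u w * Y v w = (Y * Y) u v = P u v` (`Y` symmetric). `s = ∑ w, m w`: `⟨s, m u⟩ = ∑ w, P w u = ∑ w, P u w = j P u u` (`P` symmetric, as `Y * Y` is),
`⟨s, s⟩ = ∑ u, j P u u = j²`. Put `s₀ = j⁻¹ • s`, `vv u = 2 • m u - s₀`: `‖s₀‖ = 1`, `⟨m u, s₀⟩ = P u u`,
`⟨vv u, vv v⟩ = 4 P u v - 2 P u u - 2 P v v + 1`; for `u = v` it is `1`; for adjacent `u, v` (`P u v = 0`): `‖vv u + vv v‖² = 2 + 2 (1 - 2 P u u - 2 P v v)`.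
-/

namespace Pool.Agent.Lib.MP_af3183_lc.VT

theorem exists_vec {W : Type} [Fintype W] (G : SimpleGraph W) (P : W → W → ℝ) (Y : Matrix W W ℝ) (hY : Y.transpose = Y)
    (hYY : ∀ u v, (Y * Y) u v = P u v) {j : ℝ} (hj : 0 < j) (hedge : ∀ u v, G.Adj u v → P u v = 0)
    (hrow : ∀ u, ∑ w, P u w = j * P u u) (hdiag : ∑ u, P u u = j) :
    ∃ vv : W → EuclideanSpace ℝ W, (∀ u, ‖vv u‖ = 1) ∧
      ∀ u v, G.Adj u v → ‖vv u + vv v‖ ^ 2 = 4 * (1 - P u u - P v v) := by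
  obtain ⟨m, hm⟩ : ∃ m : W → EuclideanSpace ℝ W, ∀ u w, (m u) w = Y u w :=
    ⟨fun u => WithLp.toLp 2 (Y u), fun u w => rfl⟩
  have hinner : ∀ u v, inner ℝ (m u) (m v) = P u v := by
    intro u v
    rw [← hYY u v, Matrix.mul_apply, PiLp.inner_apply]
    refine Finset.sum_congr rfl fun w _ => ?_
    have h1 : Y w v = Y v w := by
      conv_lhs => rw [← hY]
      rfl
    rw [hm, hm, h1]
    simp [mul_comm]
  obtain ⟨s, hs⟩ : ∃ s : EuclideanSpace ℝ W, s = j⁻¹ • ∑ w, m w := ⟨_, rfl⟩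
  have hms : ∀ u, inner ℝ (m u) s = P u u := by
    intro u
    rw [hs, inner_smul_right, inner_sum]
    simp only [hinner]
    rw [hrow, ← mul_assoc, inv_mul_cancel₀ hj.ne', one_mul]
  have hss : inner ℝ s s = (1 : ℝ) := by
    conv_lhs =>
      arg 2
      rw [hs]
    rw [inner_smul_left, sum_inner]
    simp only [hms]
    rw [hdiag]
    simp [hj.ne']
  have hvv : ∀ u v, inner ℝ ((2 : ℝ) • m u - s) ((2 : ℝ) • m v - s) = 4 * P u v - 2 * P u u - 2 * P v v + 1 := by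
    intro u v
    rw [inner_sub_left, inner_sub_right, inner_sub_right, inner_smul_left, inner_smul_left, inner_smul_right,
      inner_smul_right, hinner, hms, hss, real_inner_comm, hms]
    simp only [conj_trivial]
    ring
  refine ⟨fun u => (2 : ℝ) • m u - s, fun u => ?_, fun u v huv => ?_⟩
  · have h1 : ‖(2 : ℝ) • m u - s‖ ^ 2 = 1 := by
      rw [← real_inner_self_eq_norm_sq, hvv]
      ring
    have h2 := norm_nonneg ((2 : ℝ) • m u - s)
    nlinarith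
  · rw [← real_inner_self_eq_norm_sq, inner_add_left, inner_add_right, inner_add_right, hvv, hvv, hvv, hvv, hedge u v huv,
      hedge v u huv.symm]
    ring

end Pool.Agent.Lib.MP_af3183_lc.VT
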