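import Pool.Agent.Lib.MP_af3183_lc.VT.Defs

/-!
# VT-LogA: equivalent graphs have equivalent assignments
Suppose no `τ : Fin k → W` agrees with `σ`. For each `τ` there is a formula `φ_τ` true at `σ` and false at `τ` (take the negation if
necessary); `Φ` = conjunction of the finitely many `φ_τ` (`List.foldr CForm.conj` over `Finset.univ.toList` of the `Fintype (Fin k → W)`, start: the formula
`eq 0 0`). `Φ` is true at `σ` and false at all `τ`. Let `exL l φ` = `∃^{≥1}` over the variables of the list `l` (recursion: `exL (i :: l) φ = exGe 0 i (exL l φ)`);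
`Sat (exL l φ) σ ↔ ∃ σ', (∀ j ∉ l, σ' j = σ j) ∧ Sat φ σ'` (induction on `l`, all `σ`; `1 ≤ Nat.card _ ↔ Nonempty`, the types are finite), and no variable of `l` is free in it.
`exL (all variables) Φ` is a sentence; it holds in `G` and fails in `H` (`W` nonempty: `Holds` at one assignment gives a `τ` with `Φ`). Contradiction with `CEquiv`.
-/

namespace Pool.Agent.Lib.MP_af3183_lc.VT

open Pool.Agent.Lib.MP_af3183_lc

private def exL {k : ℕ} : List (Fin k) → CForm k → CForm k
  | [], φ => φ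
  | i :: l, φ => CForm.exGe 0 i (exL l φ)

private theorem exL_free {k : ℕ} (l : List (Fin k)) (φ : CForm k) :
    ∀ j ∈ l, j ∉ (exL l φ).free := by
  induction l with
  | nil => intro j hj; simp at hj
  | cons i l ih =>
    intro j hj
    change j ∉ ((exL l φ).free).erase i
    rw [Finset.mem_erase]
    rintro ⟨h1, h2⟩
    rcases List.mem_cons.1 hj with h | h
    · exact h1 h
    · exact ih j h h2

private theorem exL_sat {k : ℕ} {V : Type} [Finite V] (G : SimpleGraph V) (l : List (Fin k))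
    (φ : CForm k) : ∀ σ : Fin k → V, (exL l φ).Sat G σ ↔
      ∃ σ' : Fin k → V, (∀ j, j ∉ l → σ' j = σ j) ∧ φ.Sat G σ' := by
  induction l with
  | nil =>
    intro σ
    constructor
    · intro h
      exact ⟨σ, fun _ _ => rfl, h⟩
    · rintro ⟨σ', h1, h2⟩
      have : σ' = σ := funext fun j => h1 j (by simp)
      rw [← this]
      exact h2
  | cons i l ih =>
    intro σ
    have h0 : (exL (i :: l) φ).Sat G σ ↔
        0 + 1 ≤ Nat.card {v : V // (exL l φ).Sat G (Function.update σ i v)} := Iff.rfl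
    rw [h0, zero_add, Nat.one_le_iff_ne_zero, ← Nat.pos_iff_ne_zero, Nat.card_pos_iff]
    constructor
    · rintro ⟨⟨v, hv⟩, _⟩
      obtain ⟨σ', h1, h2⟩ := (ih _).1 hv
      refine ⟨σ', fun j hj => ?_, h2⟩
      have hji : j ≠ i := fun h => hj (by rw [h]; simp)
      have hjl : j ∉ l := fun h => hj (List.mem_cons_of_mem _ h)
      rw [h1 j hjl, Function.update_of_ne hji]
    · rintro ⟨σ', h1, h2⟩
      refine ⟨⟨σ' i, (ih _).2 ⟨σ', fun j hj => ?_, h2⟩⟩, inferInstance⟩
      by_cases hji : j = i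
      · rw [hji, Function.update_self]
      · rw [Function.update_of_ne hji]
        exact h1 j (fun h => by
          rcases List.mem_cons.1 h with h | h
          · exact hji h
          · exact hj h)

private theorem foldr_sat {k : ℕ} {V A : Type} (G : SimpleGraph V) (f : A → CForm k)
    (ψ : CForm k) (l : List A) (σ : Fin k → V) :
    (l.foldr (fun a φ => CForm.conj (f a) φ) ψ).Sat G σ ↔
      (∀ a ∈ l, (f a).Sat G σ) ∧ ψ.Sat G σ := by
  induction l with
  | nil => simp
  | cons a l ih =>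
    rw [List.foldr_cons]
    have h0 : (CForm.conj (f a) (l.foldr (fun a φ => CForm.conj (f a) φ) ψ)).Sat G σ ↔
        (f a).Sat G σ ∧ (l.foldr (fun a φ => CForm.conj (f a) φ) ψ).Sat G σ := Iff.rfl
    rw [h0, ih, List.forall_mem_cons, and_assoc]

theorem ag_exists {k : ℕ} {V W : Type} [Finite V] [Finite W] [Nonempty W] {G : SimpleGraph V} {H : SimpleGraph W}
    (hk : 0 < k) (h : CEquiv k G H) (σ : Fin k → V) : ∃ τ : Fin k → W, Ag G H σ τ := by
  classical
  by_contra hno
  have hsep : ∀ τ : Fin k → W, ∃ φ : CForm k, φ.Sat G σ ∧ ¬ φ.Sat H τ := by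
    intro τ
    have h1 : ¬ Ag G H σ τ := fun h2 => hno ⟨τ, h2⟩
    have h2 : ∃ φ : CForm k, ¬ (φ.Sat G σ ↔ φ.Sat H τ) := by
      by_contra h3
      exact h1 fun φ => by
        by_contra h4
        exact h3 ⟨φ, h4⟩
    obtain ⟨φ, hφ⟩ := h2
    by_cases h3 : φ.Sat G σ
    · refine ⟨φ, h3, fun h4 => hφ ⟨fun _ => h4, fun _ => h3⟩⟩
    · refine ⟨CForm.neg φ, h3, ?_⟩
      intro h4
      have h5 : ¬ φ.Sat H τ := h4
      exact hφ ⟨fun h6 => absurd h6 h3, fun h6 => absurd h6 h5⟩
  choose f hf1 hf2 using hsep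
  haveI : Fintype (Fin k → W) := Fintype.ofFinite _
  let i0 : Fin k := ⟨0, hk⟩
  let Φ : CForm k := (Finset.univ : Finset (Fin k → W)).toList.foldr
    (fun a φ => CForm.conj (f a) φ) (CForm.eq i0 i0)
  have hΦ1 : Φ.Sat G σ := (foldr_sat G f _ _ σ).2 ⟨fun a _ => hf1 a, rfl⟩
  have hΦ2 : ∀ τ : Fin k → W, ¬ Φ.Sat H τ := by
    intro τ hτ
    exact hf2 τ (((foldr_sat H f _ _ τ).1 hτ).1 τ (by simp))
  let l : List (Fin k) := (Finset.univ : Finset (Fin k)).toList
  have hl : ∀ j : Fin k, j ∈ l := fun j => by simp [l]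
  have hS : (exL l Φ).IsSentence := by
    change (exL l Φ).free = ∅
    rw [Finset.eq_empty_iff_forall_notMem]
    exact fun j => exL_free l Φ j (hl j)
  have hG : (exL l Φ).Holds G := fun σ0 =>
    (exL_sat G l Φ σ0).2 ⟨σ, fun j hj => absurd (hl j) hj, hΦ1⟩
  have hH : (exL l Φ).Holds H := (h _ hS).1 hG
  obtain ⟨w⟩ := (inferInstance : Nonempty W)
  obtain ⟨τ, _, hτ⟩ := (exL_sat H l Φ (fun _ => w)).1 (hH _)
  exact hΦ2 τ hτ

end Pool.Agent.Lib.MP_af3183_lc.VT
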