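import Pool.Agent.Lib.MP_af3183_lc.VT.Defs

/-!
# VT-LogB: the bijection move
Write `p v = tp G (update σ i v)`, `q w = tp H (update τ i w)` (elements of `CForm k → Prop`). Claim: for every `t`, `{v // p v = t}` and `{w // q w = t}` have the same `Nat.card`.
For `t` fixed there is a formula `θ` which is true at all `update σ i v` with `p v = t` and all `update τ i w` with `q w = t`, and false at all other `update σ i v`, `update τ i w`
(for each of the finitely many other elements of `V ⊕ W` a separating formula, or its negation; finite conjunction over a list, starting with `eq i i`; if no element has type `t` both cardinals are `0`).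
For every `m`: `exGe m i θ` is true at `σ` iff at `τ` (`h`), so `m + 1 ≤ card ↔ m + 1 ≤ card'` for all `m`; hence equality.
From the equality of the fibres: `Equiv.sigmaFiberEquiv p`, `Equiv.sigmaCongrRight`, `Finite.equivOfCardEq` (or `Nat.card_eq_iff...`) give `f : V ≃ W` with `q (f v) = p v`.
-/

namespace Pool.Agent.Lib.MP_af3183_lc.VT

open Pool.Agent.Lib.MP_af3183_lc

private theorem LogB_sep {k : ℕ} {X : Type} [Finite X] (P : X → CForm k → Prop) (i : Fin k)
    (h0 : ∀ x, P x (CForm.eq i i)) (hneg : ∀ x φ, P x (CForm.neg φ) ↔ ¬ P x φ)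
    (hconj : ∀ x φ ψ, P x (CForm.conj φ ψ) ↔ P x φ ∧ P x ψ) (y : X) :
    ∃ θ : CForm k, ∀ x, P x θ ↔ P x = P y := by
  classical
  have : Fintype X := Fintype.ofFinite X
  have key : ∀ s : Finset X, ∃ θ : CForm k, P y θ ∧ ∀ x ∈ s, P x ≠ P y → ¬ P x θ := by
    intro s
    induction s using Finset.induction_on with
    | empty => exact ⟨CForm.eq i i, h0 y, fun x hx => absurd hx (Finset.notMem_empty x)⟩
    | insert a s ha ih =>
      obtain ⟨θ, h1, h2⟩ := ih
      by_cases hP : P a = P y
      · refine ⟨θ, h1, fun x hx hne => ?_⟩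
        rcases Finset.mem_insert.1 hx with rfl | hx
        · exact absurd hP hne
        · exact h2 x hx hne
      · have hex : ∃ ψ : CForm k, P y ψ ∧ ¬ P a ψ := by
          by_contra hcon
          push Not at hcon
          apply hP
          funext φ
          apply propext
          constructor
          · intro hφ
            by_contra hn
            exact (hneg a φ).1 (hcon _ ((hneg y φ).2 hn)) hφ
          · exact hcon φ
        obtain ⟨ψ, h3, h4⟩ := hex
        refine ⟨CForm.conj ψ θ, (hconj _ _ _).2 ⟨h3, h1⟩, fun x hx hne => ?_⟩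
        rw [hconj]
        rcases Finset.mem_insert.1 hx with rfl | hx
        · exact fun hh => h4 hh.1
        · exact fun hh => h2 x hx hne hh.2
  obtain ⟨θ, h1, h2⟩ := key Finset.univ
  refine ⟨θ, fun x => ⟨fun hx => ?_, fun hx => ?_⟩⟩
  · by_contra hne
    exact h2 x (Finset.mem_univ x) hne hx
  · rw [hx]
    exact h1

private theorem LogB_nat {a b : ℕ} (h : ∀ m, m + 1 ≤ a ↔ m + 1 ≤ b) : a = b := by
  apply le_antisymm
  · rcases a with _ | m
    · exact Nat.zero_le _
    · exact (h m).1 le_rfl
  · rcases b with _ | m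
    · exact Nat.zero_le _
    · exact (h m).2 le_rfl

private theorem LogB_card {k : ℕ} {V W : Type} [Finite V] [Finite W] {G : SimpleGraph V} {H : SimpleGraph W}
    {σ : Fin k → V} {τ : Fin k → W} (h : Ag G H σ τ) (i : Fin k) (t : CForm k → Prop) :
    Nonempty ({v : V // tp G (Function.update σ i v) = t} ≃ {w : W // tp H (Function.update τ i w) = t}) := by
  classical
  let P : V ⊕ W → CForm k → Prop :=
    Sum.elim (fun v => tp G (Function.update σ i v)) (fun w => tp H (Function.update τ i w))
  by_cases hex : ∃ y, P y = t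
  · obtain ⟨y, hy⟩ := hex
    obtain ⟨θ, hθ⟩ := LogB_sep P i
      (by rintro (v | w) <;> exact (rfl : _ = _))
      (by rintro (v | w) φ <;> exact Iff.rfl)
      (by rintro (v | w) φ ψ <;> exact Iff.rfl) y
    rw [hy] at hθ
    rw [← Finite.card_eq]
    apply LogB_nat
    intro m
    have h1 : Nat.card {v : V // tp G (Function.update σ i v) = t} =
        Nat.card {v : V // θ.Sat G (Function.update σ i v)} :=
      Nat.card_congr (Equiv.subtypeEquivRight fun v => (hθ (Sum.inl v)).symm)
    have h2 : Nat.card {w : W // tp H (Function.update τ i w) = t} =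
        Nat.card {w : W // θ.Sat H (Function.update τ i w)} :=
      Nat.card_congr (Equiv.subtypeEquivRight fun w => (hθ (Sum.inr w)).symm)
    rw [h1, h2]
    exact h (CForm.exGe m i θ)
  · push Not at hex
    have e1 : IsEmpty {v : V // tp G (Function.update σ i v) = t} := ⟨fun x => hex (Sum.inl x.1) x.2⟩
    have e2 : IsEmpty {w : W // tp H (Function.update τ i w) = t} := ⟨fun x => hex (Sum.inr x.1) x.2⟩
    exact ⟨Equiv.equivOfIsEmpty _ _⟩

theorem ag_bij {k : ℕ} {V W : Type} [Finite V] [Finite W] {G : SimpleGraph V} {H : SimpleGraph W}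
    {σ : Fin k → V} {τ : Fin k → W} (h : Ag G H σ τ) (i : Fin k) :
    ∃ f : V ≃ W, ∀ v, Ag G H (Function.update σ i v) (Function.update τ i (f v)) := by
  classical
  let e := fun t => (LogB_card h i t).some
  let p : V → CForm k → Prop := fun v => tp G (Function.update σ i v)
  let q : W → CForm k → Prop := fun w => tp H (Function.update τ i w)
  refine ⟨(Equiv.sigmaFiberEquiv p).symm.trans ((Equiv.sigmaCongrRight e).trans (Equiv.sigmaFiberEquiv q)),
    fun v => ?_⟩
  rw [← tp_eq]
  exact (e (p v) ⟨v, rfl⟩).2.symm

end Pool.Agent.Lib.MP_af3183_lc.VT
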