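import Pool.Agent.Lib.MP_af3183_lc.VT.LogB

/-!
# VT-LogC: permuting and copying variables
* `ag_perm`: `ren e φ` renames all variables of `φ` (also the bound ones) by the permutation `e`; `Sat (ren e φ) σ ↔ Sat φ (σ ∘ e)` by induction on `φ`
  (`exGe`: `update (σ ∘ e) i v = (update σ (e i) v) ∘ e`, `Function.update_comp_equiv` or by cases).
* `ag_copy`: if `i = j` trivial. Else `ag_bij` for `i` gives `f`; put `v = σ j`: `update σ i (σ j)` and `update τ i (f (σ j))` agree; the formula `eq i j` is true at the first one,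
  so `f (σ j) = τ j` (the value at `j ≠ i` is `τ j`).
-/

namespace Pool.Agent.Lib.MP_af3183_lc.VT

open Pool.Agent.Lib.MP_af3183_lc

private def ren {k : ℕ} (e : Equiv.Perm (Fin k)) : CForm k → CForm k
  | .eq i j => .eq (e i) (e j)
  | .adj i j => .adj (e i) (e j)
  | .neg φ => .neg (ren e φ)
  | .conj φ ψ => .conj (ren e φ) (ren e ψ)
  | .exGe m i φ => .exGe m (e i) (ren e φ)

private theorem sat_ren {k : ℕ} {V : Type} (G : SimpleGraph V) (e : Equiv.Perm (Fin k)) (φ : CForm k) :
    ∀ σ : Fin k → V, (ren e φ).Sat G σ ↔ φ.Sat G (σ ∘ e) := by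
  induction φ with
  | eq i j => exact fun σ => Iff.rfl
  | adj i j => exact fun σ => Iff.rfl
  | neg φ ih => exact fun σ => not_congr (ih σ)
  | conj φ ψ ih1 ih2 => exact fun σ => and_congr (ih1 σ) (ih2 σ)
  | exGe m i φ ih =>
    intro σ
    have h : ∀ v : V, (ren e φ).Sat G (Function.update σ (e i) v) ↔
        φ.Sat G (Function.update (σ ∘ e) i v) := by
      intro v
      rw [ih, Function.update_comp_eq_of_injective σ e.injective i v]
    show m + 1 ≤ Nat.card {v : V // (ren e φ).Sat G (Function.update σ (e i) v)} ↔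
      m + 1 ≤ Nat.card {v : V // φ.Sat G (Function.update (σ ∘ e) i v)}
    simp only [h]

theorem ag_perm {k : ℕ} {V W : Type} {G : SimpleGraph V} {H : SimpleGraph W}
    {σ : Fin k → V} {τ : Fin k → W} (h : Ag G H σ τ) (e : Equiv.Perm (Fin k)) : Ag G H (σ ∘ e) (τ ∘ e) := by
  intro φ
  rw [← sat_ren G e φ σ, ← sat_ren H e φ τ]
  exact h (ren e φ)

theorem ag_copy {k : ℕ} {V W : Type} [Finite V] [Finite W] {G : SimpleGraph V} {H : SimpleGraph W}
    {σ : Fin k → V} {τ : Fin k → W} (h : Ag G H σ τ) (i j : Fin k) :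
    Ag G H (Function.update σ i (σ j)) (Function.update τ i (τ j)) := by
  by_cases hij : i = j
  · subst hij
    rw [Function.update_eq_self, Function.update_eq_self]
    exact h
  · obtain ⟨f, hf⟩ := ag_bij h i
    have h1 := hf (σ j)
    have h2 := (h1.eq i j).1 (by
      rw [Function.update_self, Function.update_of_ne (Ne.symm hij)])
    rw [Function.update_self, Function.update_of_ne (Ne.symm hij)] at h2
    rw [h2] at h1
    exact h1

end Pool.Agent.Lib.MP_af3183_lc.VT
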